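import Pool.Agent.Helper35.DO.D16e

/-! D16: `gv^m` as a mixed cochain. -/

set_option autoImplicit false

namespace Pool.Agent.Helper67.DO

open scoped BigOperators Real
open MeasureTheory

noncomputable section

theorem d16_MC (h1 : ST_D1) (h2 : ST_D2) (h9 : ST_D9) (h10 : ST_D10) (n m : ℕ) (hn : 1 ≤ n) :
    MC n (2 * m) (d16_c m) := by
  refine ⟨?_, ?_, ?_, ?_, ?_, ?_, ?_⟩
  · intro j _ y y' v h
    rw [d16_c, d16_c, d16_r, d16_r]
    congr 1
    apply Finset.prod_congr rfl
    intro i hi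
    rw [Finset.mem_range] at hi
    exact d16_K_dep j i y y' v v (h _ (by omega)) (h _ (by omega)) (fun _ => h _ (by omega))
      (fun _ _ => rfl)
  · intro j _ y v v' h
    rw [d16_c, d16_c, d16_r, d16_r]
    congr 1
    apply Finset.prod_congr rfl
    intro i _
    exact d16_K_dep j i y y v v' rfl rfl (fun _ => rfl) h
  · exact d16_uc h1 h2 n m hn
  · intro j _ y v t s K _ _
    rw [d16_c, d16_c, d16_r, d16_r]
    congr 1
    apply Finset.prod_congr rfl
    intro i _
    exact d16_K_tinv j i y v t s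
  · intro j _ y v g K hg hy hv _ _
    rw [d16_c, d16_c, d16_r, d16_r]
    congr 1
    apply Finset.prod_congr rfl
    intro i _
    exact d16_K_rinv j i y v g hg (fun k => (hy k).1) (fun b => d16_VV (hv b))
  · intro j hj y v K hy hv
    have h := d16_m2 m j hj y v (fun k => (hy k).1) (fun b => d16_VV (hv b))
    have e : Finset.Icc j (2 * m + 1) = Finset.Ico j (2 * m + 2) := by
      ext i
      simp only [Finset.mem_Icc, Finset.mem_Ico]
      omega
    rw [e]
    have h' := congrArg (fun t : ℝ => (t : ℂ)) h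
    simp only [Complex.ofReal_sum, Complex.ofReal_mul, Complex.ofReal_pow, Complex.ofReal_neg,
      Complex.ofReal_one, Complex.ofReal_zero] at h'
    exact h'
  · intro j hj y z hy hz
    exact d16_m3 h2 h9 h10 n m j hn hj y z hy hz

theorem d16_zero (m : ℕ) (y v : Sq) : d16_c m 0 y v = gvPow m y := by
  rw [d16_c, d16_r, gvPow, Complex.ofReal_prod]
  apply Finset.prod_congr rfl
  intro i _
  unfold d16_K
  rw [if_neg (by omega), if_neg (by omega)]
  rfl

theorem d16_top (m : ℕ) (Φ : ℝ → ℝ) (v : Sq) : d16_c m (2 * m) (fun _ => Φ) v =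
    ∏ i ∈ Finset.range m, ((∫ x in (0 : ℝ)..1, (deriv (v (2 * i)) x / deriv Φ x) *
      deriv (fun t => deriv (v (2 * i + 1)) t / deriv Φ t) x : ℝ) : ℂ) := by
  rw [d16_c, d16_r, Complex.ofReal_prod]
  apply Finset.prod_congr rfl
  intro i hi
  rw [Finset.mem_range] at hi
  unfold d16_K
  rw [if_pos (by omega)]
  rfl

theorem st_D16 (h1 : ST_D1) (h2 : ST_D2) (h9 : ST_D9) (h10 : ST_D10) : ST_D16 := by
  intro n m hn
  exact ⟨d16_c m, d16_MC h1 h2 h9 h10 n m hn, fun y v _ => d16_zero m y v,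
    fun Φ _ K v _ => d16_top m Φ v⟩

end

end Pool.Agent.Helper67.DO
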