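import Pool.Agent.Helper67.DO.StmtsD

/-! D16, part a: definitions, algebraic properties. -/

set_option autoImplicit false

namespace Pool.Agent.Helper67.DO

open scoped BigOperators Real
open MeasureTheory

noncomputable section

/-- the pairing `∫ f dg` -/
def d16_w (f g : ℝ → ℝ) : ℝ := ∫ x in (0 : ℝ)..1, f x * deriv g x

def d16_l (Φ : ℝ → ℝ) : ℝ → ℝ := fun x => Real.log (deriv Φ x)

def d16_la (Φ v : ℝ → ℝ) : ℝ → ℝ := fun x => deriv v x / deriv Φ x

/-- the `i`-th factor when the first `j` variables are differentiated -/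
def d16_K (j i : ℕ) (y v : Sq) : ℝ :=
  if 2 * i + 1 < j then d16_w (d16_la (y (2 * i)) (v (2 * i))) (d16_la (y (2 * i + 1)) (v (2 * i + 1)))
  else if 2 * i < j then d16_w (d16_la (y (2 * i)) (v (2 * i)))
    (fun x => d16_l (y (2 * i + 1)) x - d16_l (y (2 * i + 2)) x)
  else d16_w (fun x => d16_l (y (2 * i)) x - d16_l (y (2 * i + 2)) x)
    (fun x => d16_l (y (2 * i + 1)) x - d16_l (y (2 * i + 2)) x)

/-- real valued mixed cochain -/
def d16_r (m j : ℕ) (y v : Sq) : ℝ := ∏ i ∈ Finset.range m, d16_K j i y v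

/-- the mixed cochain -/
def d16_c (m : ℕ) (j : ℕ) (y v : Sq) : ℂ := ((d16_r m j y v : ℝ) : ℂ)

/-- periodic `C^1` functions -/
structure D16N (f : ℝ → ℝ) : Prop where
  c1 : ContDiff ℝ 1 f
  per : ∀ x, f (x + 1) = f x

theorem D16N.diff {f : ℝ → ℝ} (h : D16N f) : Differentiable ℝ f := h.c1.differentiable (by norm_num)

theorem D16N.cd {f : ℝ → ℝ} (h : D16N f) : Continuous (deriv f) := h.c1.continuous_deriv (le_refl _)

theorem D16N.sub {f g : ℝ → ℝ} (h : D16N f) (k : D16N g) : D16N (fun x => f x - g x) :=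
  ⟨h.c1.sub k.c1, fun x => by rw [h.per, k.per]⟩

theorem D16N.dper {f : ℝ → ℝ} (h : D16N f) (x : ℝ) : deriv f (x + 1) = deriv f x := by
  rw [← deriv_comp_add_const]
  congr 1
  funext t
  exact h.per t

theorem d16_w_int {f g : ℝ → ℝ} (hf : D16N f) (hg : D16N g) (a b : ℝ) :
    IntervalIntegrable (fun x => f x * deriv g x) volume a b :=
  (hf.c1.continuous.mul hg.cd).intervalIntegrable _ _

theorem d16_w_sub_left {f f' g : ℝ → ℝ} (hf : D16N f) (hf' : D16N f') (hg : D16N g) :
    d16_w (fun x => f x - f' x) g = d16_w f g - d16_w f' g := by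
  rw [d16_w, d16_w, d16_w, ← intervalIntegral.integral_sub (d16_w_int hf hg _ _)
    (d16_w_int hf' hg _ _)]
  congr 1
  funext x
  ring

theorem d16_w_sub_right {f g g' : ℝ → ℝ} (hf : D16N f) (hg : D16N g) (hg' : D16N g') :
    d16_w f (fun x => g x - g' x) = d16_w f g - d16_w f g' := by
  rw [d16_w, d16_w, d16_w, ← intervalIntegral.integral_sub (d16_w_int hf hg _ _)
    (d16_w_int hf hg' _ _)]
  congr 1
  funext x
  have : deriv (fun x => g x - g' x) x = deriv g x - deriv g' x :=
    deriv_fun_sub (hg.diff x) (hg'.diff x)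
  rw [this]
  ring

theorem d16_w_alt {f g : ℝ → ℝ} (hf : D16N f) (hg : D16N g) : d16_w f g = - d16_w g f := by
  have h1 : ∫ x in (0 : ℝ)..1, (f x * deriv g x + g x * deriv f x) = f 1 * g 1 - f 0 * g 0 := by
    apply intervalIntegral.integral_eq_sub_of_hasDerivAt (f := fun x => f x * g x)
    · intro x _
      have := (hf.diff x).hasDerivAt.mul (hg.diff x).hasDerivAt
      refine this.congr_deriv ?_
      ring
    · exact ((hf.c1.continuous.mul hg.cd).add (hg.c1.continuous.mul hf.cd)).intervalIntegrable _ _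
  rw [intervalIntegral.integral_add (d16_w_int hf hg _ _) (d16_w_int hg hf _ _)] at h1
  have h2 : f 1 = f 0 := by simpa using hf.per 0
  have h3 : g 1 = g 0 := by simpa using hg.per 0
  rw [h2, h3, sub_self] at h1
  rw [d16_w, d16_w]
  linarith

theorem d16_w_self {f : ℝ → ℝ} (hf : D16N f) : d16_w f f = 0 := by
  have := d16_w_alt hf hf
  linarith

/-- `κ(a,b,c)` -/
theorem d16_kap {a b c : ℝ → ℝ} (ha : D16N a) (hb : D16N b) (hc : D16N c) :
    d16_w (fun x => a x - c x) (fun x => b x - c x) = d16_w a b + d16_w b c - d16_w a c := by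
  rw [d16_w_sub_left ha hc (hb.sub hc), d16_w_sub_right ha hb hc, d16_w_sub_right hc hb hc,
    d16_w_self hc, d16_w_alt hc hb]
  ring

/-! ### logarithmic derivatives -/

theorem d16_cd {Φ : ℝ → ℝ} (h : IsLift Φ) : ContDiff ℝ 3 Φ :=
  contDiff_iff_contDiffAt.2 fun x => (h.an x).contDiffAt

theorem d16_dcd {f : ℝ → ℝ} (h : ContDiff ℝ 3 f) : ContDiff ℝ 2 (deriv f) := by
  have : (3 : WithTop ℕ∞) = 2 + 1 := by norm_num
  rw [this] at h
  exact (contDiff_succ_iff_deriv.1 h).2.2

theorem d16_ddcd {f : ℝ → ℝ} (h : ContDiff ℝ 3 f) : ContDiff ℝ 1 (deriv (deriv f)) := by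
  have h2 := d16_dcd h
  have : (2 : WithTop ℕ∞) = 1 + 1 := by norm_num
  rw [this] at h2
  exact (contDiff_succ_iff_deriv.1 h2).2.2

theorem d16_dper {Φ : ℝ → ℝ} (h : ∀ x, Φ (x + 1) = Φ x + 1) (x : ℝ) : deriv Φ (x + 1) = deriv Φ x := by
  rw [← deriv_comp_add_const]
  have : (fun x => Φ (x + 1)) = fun x => Φ x + 1 := funext h
  rw [this, deriv_add_const]

theorem d16_lN {Φ : ℝ → ℝ} (h : IsLift Φ) : D16N (d16_l Φ) := by
  refine ⟨?_, fun x => ?_⟩
  · exact ((d16_dcd (d16_cd h)).of_le (by norm_num)).log (fun x => (h.pos x).ne')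
  · rw [d16_l, d16_dper h.per]
    rfl

/-- admissible directions -/
structure D16V (v : ℝ → ℝ) : Prop where
  c3 : ContDiff ℝ 3 v
  per : ∀ x, v (x + 1) = v x

theorem d16_VV {n : ℕ} {K : ℝ} {v : ℝ → ℝ} (h : v ∈ VV n K) : D16V v := by
  obtain ⟨⟨Φ, hΦ, Ψ, hΨ, rfl⟩, -⟩ := h
  refine ⟨?_, fun x => ?_⟩
  · exact contDiff_const.mul ((d16_cd hΦ.1).sub (d16_cd hΨ.1))
  · rw [hΦ.1.per, hΨ.1.per]
    ring

theorem d16_laN {Φ v : ℝ → ℝ} (h : IsLift Φ) (hv : D16V v) : D16N (d16_la Φ v) := by
  refine ⟨?_, fun x => ?_⟩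
  · exact ((d16_dcd hv.c3).of_le (by norm_num)).div ((d16_dcd (d16_cd h)).of_le (by norm_num))
      (fun x => (h.pos x).ne')
  · rw [d16_la]
    rw [d16_dper h.per]
    congr 1
    rw [← deriv_comp_add_const]
    congr 1
    funext t
    exact hv.per t

/-! ### dependence -/

theorem d16_K_dep (j i : ℕ) (y y' v v' : Sq) (h0 : y (2 * i) = y' (2 * i))
    (h1 : y (2 * i + 1) = y' (2 * i + 1)) (h2 : j ≤ 2 * i + 1 → y (2 * i + 2) = y' (2 * i + 2))
    (hv : ∀ b < j, v b = v' b) : d16_K j i y v = d16_K j i y' v' := by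
  unfold d16_K
  split_ifs with a b
  · rw [h0, h1, hv _ (by omega), hv _ (by omega)]
  · rw [h0, h1, h2 (by omega), hv _ (by omega)]
  · rw [h0, h1, h2 (by omega)]

/-! ### invariance under translations -/

theorem d16_K_tinv (j i : ℕ) (y v : Sq) (t s : ℕ → ℝ) :
    d16_K j i (fun k x => y k x + t k) (fun b x => v b x + s b) = d16_K j i y v := by
  have hl : ∀ k, d16_l (fun x => y k x + t k) = d16_l (y k) := by
    intro k
    funext x
    rw [d16_l, d16_l]
    rw [deriv_add_const]
  have hla : ∀ k b, d16_la (fun x => y k x + t k) (fun x => v b x + s b) = d16_la (y k) (v b) := by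
    intro k b
    funext x
    rw [d16_la, d16_la]
    rw [deriv_add_const, deriv_add_const]
  unfold d16_K
  simp only [hl, hla]

/-! ### right invariance -/

theorem d16_w_comp {f k g : ℝ → ℝ} (hf : D16N f) (hk : D16N k) (hg : IsLift g) :
    d16_w (fun x => f (g x)) (fun x => k (g x)) = d16_w f k := by
  have hcont : Continuous (fun x => f x * deriv k x) := hf.c1.continuous.mul hk.cd
  have h1 : ∀ x, deriv (fun x => k (g x)) x = deriv k (g x) * deriv g x := fun x =>
    ((hk.diff (g x)).hasDerivAt.comp x (hg.diff x).hasDerivAt).deriv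
  rw [d16_w, d16_w]
  have h2 : ∫ x in (0 : ℝ)..1, f (g x) * deriv (fun x => k (g x)) x
      = ∫ x in (0 : ℝ)..1, ((fun x => f x * deriv k x) ∘ g) x * deriv g x := by
    congr 1
    funext x
    rw [h1, Function.comp]
    ring
  rw [h2, intervalIntegral.integral_comp_mul_deriv (fun x _ => (hg.diff x).hasDerivAt)
    ((d16_dcd (d16_cd hg)).continuous.continuousOn) hcont]
  have h3 : g 1 = g 0 + 1 := by simpa using hg.per 0
  rw [h3]
  have hp : Function.Periodic (fun x => f x * deriv k x) 1 := by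
    intro x
    dsimp only
    rw [hf.per, hk.dper]
  have := hp.intervalIntegral_add_eq (g 0) 0
  rw [zero_add] at this
  exact this

theorem d16_l_comp {Φ g : ℝ → ℝ} (h : IsLift Φ) (hg : IsLift g) (x : ℝ) :
    d16_l (fun x => Φ (g x)) x = d16_l Φ (g x) + Real.log (deriv g x) := by
  have h1 : deriv (fun x => Φ (g x)) x = deriv Φ (g x) * deriv g x :=
    ((h.diff (g x)).hasDerivAt.comp x (hg.diff x).hasDerivAt).deriv
  rw [d16_l, d16_l]
  rw [h1, Real.log_mul (h.pos _).ne' (hg.pos _).ne']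

theorem d16_la_comp {Φ v g : ℝ → ℝ} (h : IsLift Φ) (hv : D16V v) (hg : IsLift g) :
    d16_la (fun x => Φ (g x)) (fun x => v (g x)) = fun x => d16_la Φ v (g x) := by
  funext x
  have h1 : deriv (fun x => Φ (g x)) x = deriv Φ (g x) * deriv g x :=
    ((h.diff (g x)).hasDerivAt.comp x (hg.diff x).hasDerivAt).deriv
  have h2 : deriv (fun x => v (g x)) x = deriv v (g x) * deriv g x :=
    (((hv.c3.differentiable (by norm_num)) (g x)).hasDerivAt.comp x (hg.diff x).hasDerivAt).deriv
  rw [d16_la, d16_la]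
  rw [h1, h2, mul_div_mul_right _ _ (hg.pos _).ne']

theorem d16_K_rinv (j i : ℕ) (y v : Sq) (g : ℝ → ℝ) (hg : IsLift g) (hy : ∀ k, IsLift (y k))
    (hv : ∀ b, D16V (v b)) :
    d16_K j i (fun k x => y k (g x)) (fun b x => v b (g x)) = d16_K j i y v := by
  have hl : ∀ k k' : ℕ, (fun x => d16_l (fun x => y k (g x)) x - d16_l (fun x => y k' (g x)) x)
      = fun x => (fun t => d16_l (y k) t - d16_l (y k') t) (g x) := by
    intro k k'
    funext x
    rw [d16_l_comp (hy k) hg, d16_l_comp (hy k') hg]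
    ring
  have hla : ∀ k b : ℕ, d16_la (fun x => y k (g x)) (fun x => v b (g x))
      = fun x => d16_la (y k) (v b) (g x) := fun k b => d16_la_comp (hy k) (hv b) hg
  unfold d16_K
  split_ifs with a b
  · rw [hla, hla]
    exact d16_w_comp (d16_laN (hy _) (hv _)) (d16_laN (hy _) (hv _)) hg
  · rw [hla, hl]
    exact d16_w_comp (d16_laN (hy _) (hv _)) ((d16_lN (hy _)).sub (d16_lN (hy _))) hg
  · rw [hl, hl]
    exact d16_w_comp ((d16_lN (hy _)).sub (d16_lN (hy _))) ((d16_lN (hy _)).sub (d16_lN (hy _))) hg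

/-! ### cocycle identities -/

theorem d16_r_succ (m j : ℕ) (y v : Sq) :
    d16_r (m + 1) j y v = d16_K j 0 y v * d16_r m (j - 2) (fun k => y (k + 2)) (fun k => v (k + 2)) := by
  rw [d16_r, Finset.prod_range_succ', mul_comm, d16_r]
  congr 1
  apply Finset.prod_congr rfl
  intro i _
  unfold d16_K
  have e1 : 2 * (i + 1) = 2 * i + 2 := by ring
  have e2 : (2 * (i + 1) + 1 < j) ↔ (2 * i + 1 < j - 2) := by omega
  have e3 : (2 * (i + 1) < j) ↔ (2 * i < j - 2) := by omega
  have e4 : 2 * i + 2 + 1 = 2 * i + 1 + 2 := by ring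
  simp only [e2, e3]
  rw [e1, e4]

/-- directions are irrelevant when nothing is differentiated -/
theorem d16_r_zero (m : ℕ) (y v v' : Sq) : d16_r m 0 y v = d16_r m 0 y v' := by
  rw [d16_r, d16_r]
  apply Finset.prod_congr rfl
  intro i _
  exact d16_K_dep 0 i y y v v' rfl rfl (fun _ => rfl) (fun b hb => absurd hb (Nat.not_lt_zero b))

theorem d16_rm_shift (i : ℕ) (hi : 2 ≤ i) (y : Sq) :
    (fun k => rm i y (k + 2)) = rm (i - 2) (fun k => y (k + 2)) := by
  funext k
  unfold rm
  by_cases h : k + 2 < i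
  · rw [if_pos h, if_pos (by omega)]
  · rw [if_neg h, if_neg (by omega)]

theorem d16_rm_lt (i k : ℕ) (h : k < i) (y : Sq) : rm i y k = y k := by
  unfold rm
  rw [if_pos h]

theorem d16_rm_ge (i k : ℕ) (h : i ≤ k) (y : Sq) : rm i y k = y (k + 1) := by
  unfold rm
  rw [if_neg (by omega)]

theorem d16_m2 : ∀ (m j : ℕ), j ≤ 2 * m → ∀ (y v : Sq), (∀ k, IsLift (y k)) → (∀ b, D16V (v b)) →
    ∑ i ∈ Finset.Ico j (2 * m + 2), (-1 : ℝ) ^ i * d16_r m j (rm i y) v = 0 := by
  intro m
  induction m with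
  | zero =>
    intro j hj y v _ _
    have : j = 0 := by omega
    subst this
    simp [d16_r, Finset.sum_range_succ]
  | succ m ih =>
    intro j hj y v hy hv
    have e0 : 2 * (m + 1) + 2 = 2 * m + 2 + 2 := by ring
    rw [e0]
    -- tail sums
    set y2 : Sq := fun k => y (k + 2) with hy2
    set v2 : Sq := fun k => v (k + 2) with hv2
    have hy2' : ∀ k, IsLift (y2 k) := fun k => hy (k + 2)
    have hv2' : ∀ k, D16V (v2 k) := fun k => hv (k + 2)
    have hterm : ∀ i, 2 ≤ i → d16_r (m + 1) j (rm i y) v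
        = d16_K j 0 (rm i y) v * d16_r m (j - 2) (rm (i - 2) y2) v2 := by
      intro i hi
      rw [d16_r_succ, d16_rm_shift i hi]
    by_cases hj2 : 2 ≤ j
    · have h1 : ∑ i ∈ Finset.Ico j (2 * m + 2 + 2), (-1 : ℝ) ^ i * d16_r (m + 1) j (rm i y) v
          = ∑ i ∈ Finset.Ico (j - 2) (2 * m + 2), (-1 : ℝ) ^ (i + 2) * d16_r (m + 1) j (rm (i + 2) y) v := by
        rw [Finset.sum_Ico_add' (fun i => (-1 : ℝ) ^ i * d16_r (m + 1) j (rm i y) v)]
        congr 2
        omega
      rw [h1]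
      have h2 : ∀ i ∈ Finset.Ico (j - 2) (2 * m + 2),
          (-1 : ℝ) ^ (i + 2) * d16_r (m + 1) j (rm (i + 2) y) v
          = d16_K j 0 y v * ((-1 : ℝ) ^ i * d16_r m (j - 2) (rm i y2) v2) := by
        intro i _
        rw [hterm (i + 2) (by omega), Nat.add_sub_cancel]
        have : d16_K j 0 (rm (i + 2) y) v = d16_K j 0 y v := by
          apply d16_K_dep
          · exact d16_rm_lt _ _ (by omega) _
          · exact d16_rm_lt _ _ (by omega) _
          · intro h
            omega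
          · intro b _
            rfl
        rw [this, pow_add]
        ring
      rw [Finset.sum_congr rfl h2, ← Finset.mul_sum, ih (j - 2) (by omega) y2 v2 hy2' hv2', mul_zero]
    · push Not at hj2
      -- `j = 0` or `j = 1`
      have hj0 : j - 2 = 0 := by omega
      rw [hj0] at hterm
      have hih := ih 0 (by omega) y2 v2 hy2' hv2'
      rw [Finset.sum_eq_sum_Ico_succ_bot (by omega)] at hih
      simp only [pow_zero, one_mul] at hih
      set C0 := d16_r m 0 (rm 0 y2) v2 with hC0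
      have hlow : ∀ i, i ≤ 2 → d16_r m 0 (fun k => rm i y (k + 2)) v2 = C0 := by
        intro i hi
        rw [hC0]
        congr 1
        funext k
        rw [d16_rm_ge _ _ (by omega), d16_rm_ge _ _ (by omega)]
      have htail : ∑ i ∈ Finset.Ico 3 (2 * m + 2 + 2), (-1 : ℝ) ^ i * d16_r (m + 1) j (rm i y) v
          = - (d16_K j 0 y v * C0) := by
        have h1 : ∑ i ∈ Finset.Ico 3 (2 * m + 2 + 2), (-1 : ℝ) ^ i * d16_r (m + 1) j (rm i y) v
            = ∑ i ∈ Finset.Ico (0 + 1) (2 * m + 2), (-1 : ℝ) ^ (i + 2) * d16_r (m + 1) j (rm (i + 2) y) v := by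
          rw [Finset.sum_Ico_add' (fun i => (-1 : ℝ) ^ i * d16_r (m + 1) j (rm i y) v)]
        rw [h1]
        have h2 : ∀ i ∈ Finset.Ico (0 + 1) (2 * m + 2),
            (-1 : ℝ) ^ (i + 2) * d16_r (m + 1) j (rm (i + 2) y) v
            = d16_K j 0 y v * ((-1 : ℝ) ^ i * d16_r m 0 (rm i y2) v2) := by
          intro i hi
          rw [Finset.mem_Ico] at hi
          rw [hterm (i + 2) (by omega), Nat.add_sub_cancel]
          have : d16_K j 0 (rm (i + 2) y) v = d16_K j 0 y v := by
            apply d16_K_dep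
            · exact d16_rm_lt _ _ (by omega) _
            · exact d16_rm_lt _ _ (by omega) _
            · intro _
              exact d16_rm_lt _ _ (by omega) _
            · intro b _
              rfl
          rw [this, pow_add]
          ring
        rw [Finset.sum_congr rfl h2, ← Finset.mul_sum]
        have h3 : ∑ i ∈ Finset.Ico (0 + 1) (2 * m + 2), (-1 : ℝ) ^ i * d16_r m 0 (rm i y2) v2 = - C0 := by
          linarith
        rw [h3]
        ring
      have N := fun k => d16_lN (hy k)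
      rcases Nat.lt_or_ge j 1 with h0 | h1
      · have : j = 0 := by omega
        subst this
        rw [Finset.sum_eq_sum_Ico_succ_bot (by omega), Finset.sum_eq_sum_Ico_succ_bot (by omega),
          Finset.sum_eq_sum_Ico_succ_bot (by omega)]
        have e3 : 0 + 1 + 1 + 1 = 3 := rfl
        rw [e3, htail, d16_r_succ, d16_r_succ, d16_r_succ, hlow 0 (by omega), hlow 1 (by omega),
          hlow 2 (by omega)]
        have k0 : d16_K 0 0 (rm 0 y) v = d16_w (fun x => d16_l (y 1) x - d16_l (y 3) x)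
            (fun x => d16_l (y 2) x - d16_l (y 3) x) := rfl
        have k1 : d16_K 0 0 (rm (0 + 1) y) v = d16_w (fun x => d16_l (y 0) x - d16_l (y 3) x)
            (fun x => d16_l (y 2) x - d16_l (y 3) x) := rfl
        have k2 : d16_K 0 0 (rm (0 + 1 + 1) y) v = d16_w (fun x => d16_l (y 0) x - d16_l (y 3) x)
            (fun x => d16_l (y 1) x - d16_l (y 3) x) := rfl
        have k3 : d16_K 0 0 y v = d16_w (fun x => d16_l (y 0) x - d16_l (y 2) x)
            (fun x => d16_l (y 1) x - d16_l (y 2) x) := rfl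
        rw [k0, k1, k2, k3, d16_kap (N 1) (N 2) (N 3), d16_kap (N 0) (N 2) (N 3),
          d16_kap (N 0) (N 1) (N 3), d16_kap (N 0) (N 1) (N 2)]
        ring
      · have : j = 1 := by omega
        subst this
        rw [Finset.sum_eq_sum_Ico_succ_bot (by omega), Finset.sum_eq_sum_Ico_succ_bot (by omega)]
        have e3 : 1 + 1 + 1 = 3 := rfl
        rw [e3, htail, d16_r_succ, d16_r_succ, hlow 1 (by omega), hlow 2 (by omega)]
        have L := d16_laN (hy 0) (hv 0)
        have k1 : d16_K 1 0 (rm 1 y) v = d16_w (d16_la (y 0) (v 0))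
            (fun x => d16_l (y 2) x - d16_l (y 3) x) := rfl
        have k2 : d16_K 1 0 (rm (1 + 1) y) v = d16_w (d16_la (y 0) (v 0))
            (fun x => d16_l (y 1) x - d16_l (y 3) x) := rfl
        have k3 : d16_K 1 0 y v = d16_w (d16_la (y 0) (v 0))
            (fun x => d16_l (y 1) x - d16_l (y 2) x) := rfl
        rw [k1, k2, k3, d16_w_sub_right L (N 2) (N 3), d16_w_sub_right L (N 1) (N 3),
          d16_w_sub_right L (N 1) (N 2)]
        ring

end

end Pool.Agent.Helper67.DO
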