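import Pool.Agent.Helper35.DO.D16a

/-! D16, part b: uniform continuity. -/

set_option autoImplicit false

namespace Pool.Agent.Helper67.DO

open scoped BigOperators Real
open MeasureTheory

noncomputable section

theorem d16_St_open (s : ℝ) : IsOpen (St s) := by
  have : St s = (fun z : ℂ => |z.im|) ⁻¹' Set.Iio s := rfl
  rw [this]
  exact isOpen_Iio.preimage (continuous_abs.comp Complex.continuous_im)

theorem d16_rd {s : ℝ} {f : ℂ → ℂ} {v : ℝ → ℝ} (hs : 0 < s) (hf : DifferentiableOn ℂ f (St s))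
    (hr : ∀ x : ℝ, f x = (v x : ℂ)) (hv : Differentiable ℝ v) :
    DifferentiableOn ℂ (deriv f) (St s) ∧ ∀ x : ℝ, deriv f x = ((deriv v x : ℝ) : ℂ) := by
  refine ⟨hf.deriv (d16_St_open s), fun x => ?_⟩
  have hx : (x : ℂ) ∈ St s := by
    show |(x : ℂ).im| < s
    rw [Complex.ofReal_im, abs_zero]
    exact hs
  have h1 : HasDerivAt f (deriv f x) (x : ℂ) :=
    ((hf x hx).differentiableAt ((d16_St_open s).mem_nhds hx)).hasDerivAt
  have h2 := h1.comp_ofReal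
  have h3 : (fun y : ℝ => f (y : ℂ)) = fun y : ℝ => ((v y : ℝ) : ℂ) := funext hr
  rw [h3] at h2
  exact h2.unique (hv x).hasDerivAt.ofReal_comp

theorem d16_cauchy {ρ C : ℝ} {f : ℂ → ℂ} {v : ℝ → ℝ} (hρ : 0 < ρ)
    (hf : DifferentiableOn ℂ f (St (2 * ρ))) (hr : ∀ x : ℝ, f x = (v x : ℂ)) (hv : ContDiff ℝ 3 v)
    (hC : ∀ z ∈ St (2 * ρ), ‖f z‖ ≤ C) (x : ℝ) :
    |deriv v x| ≤ C / ρ ∧ |deriv (deriv v) x| ≤ 2 * C / ρ ^ 2 := by
  have h1 := d16_rd (by positivity : (0 : ℝ) < 2 * ρ) hf hr (hv.differentiable (by norm_num))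
  have h2 := d16_rd (by positivity : (0 : ℝ) < 2 * ρ) h1.1 h1.2
    ((d16_dcd hv).differentiable (by norm_num))
  have hsub : Metric.closedBall (x : ℂ) ρ ⊆ St (2 * ρ) := by
    intro z hz
    rw [Metric.mem_closedBall, dist_eq_norm] at hz
    show |z.im| < 2 * ρ
    have := Complex.abs_im_le_norm (z - x)
    rw [Complex.sub_im, Complex.ofReal_im, sub_zero] at this
    linarith
  have hd : DiffContOnCl ℂ f (Metric.ball (x : ℂ) ρ) := by
    apply DifferentiableOn.diffContOnCl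
    rw [closure_ball _ hρ.ne']
    exact hf.mono hsub
  have hs : ∀ z ∈ Metric.sphere (x : ℂ) ρ, ‖f z‖ ≤ C := fun z hz =>
    hC z (hsub (Metric.sphere_subset_closedBall hz))
  have a1 := Complex.norm_iteratedDeriv_le_of_forall_mem_sphere_norm_le 1 hρ hd hs
  have a2 := Complex.norm_iteratedDeriv_le_of_forall_mem_sphere_norm_le 2 hρ hd hs
  rw [iteratedDeriv_one, h1.2 x, Complex.norm_real, Real.norm_eq_abs] at a1
  have e2 : iteratedDeriv 2 f = deriv (deriv f) := by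
    rw [iteratedDeriv_succ, iteratedDeriv_one]
  rw [e2, h2.2 x, Complex.norm_real, Real.norm_eq_abs] at a2
  constructor
  · simpa using a1
  · have : ((Nat.factorial 2 : ℕ) : ℝ) = 2 := by norm_num [Nat.factorial]
    rw [this] at a2
    exact a2

/-- the data used below -/
structure D16D (n : ℕ) : Prop where
  bΦ : ∃ B : ℝ, ∀ Φ ∈ AA n, ∀ x, |deriv Φ x| ≤ B ∧ |deriv (deriv Φ) x| ≤ B
  bv : ∀ K : ℝ, ∃ B : ℝ, ∀ v ∈ VV n K, ∀ x, |deriv v x| ≤ B ∧ |deriv (deriv v) x| ≤ B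
  cΦ : ∀ ε : ℝ, 0 < ε → ∃ δ : ℝ, 0 < δ ∧ ∀ Φ ∈ AA n, ∀ Φ' ∈ AA n, (∀ x, |Φ x - Φ' x| ≤ δ) →
    ∀ x, |deriv Φ x - deriv Φ' x| ≤ ε ∧ |deriv (deriv Φ) x - deriv (deriv Φ') x| ≤ ε
  cv : ∀ K ε : ℝ, 0 < ε → ∃ δ : ℝ, 0 < δ ∧ ∀ v ∈ VV n K, ∀ v' ∈ VV n K, (∀ x, |v x - v' x| ≤ δ) →
    ∀ x, |deriv v x - deriv v' x| ≤ ε ∧ |deriv (deriv v) x - deriv (deriv v') x| ≤ ε

theorem d16_bv (hD1 : ST_D1) (n : ℕ) (hn : 1 ≤ n) (K : ℝ) :
    ∃ B : ℝ, ∀ v ∈ VV n K, ∀ x, |deriv v x| ≤ B ∧ |deriv (deriv v) x| ≤ B := by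
  obtain ⟨ρ, s, M, hI⟩ := hD1 n hn
  have hρ : 0 < ρ := lt_of_lt_of_le hI.pos.1 hI.pos.2.1
  refine ⟨max (M * K / ρ) (2 * (M * K) / ρ ^ 2), fun v hv x => ?_⟩
  have := d16_cauchy hρ (hI.vhol K v hv) (hI.vreal K v hv) (d16_VV hv).c3
    (fun z hz => (hI.vbd K v hv z hz).2) x
  exact ⟨this.1.trans (le_max_left _ _), this.2.trans (le_max_right _ _)⟩

theorem d16_cv (hD1 : ST_D1) (hD2 : ST_D2) (n : ℕ) (hn : 1 ≤ n) (K ε : ℝ) (hε : 0 < ε) :
    ∃ δ : ℝ, 0 < δ ∧ ∀ v ∈ VV n K, ∀ v' ∈ VV n K, (∀ x, |v x - v' x| ≤ δ) →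
    ∀ x, |deriv v x - deriv v' x| ≤ ε ∧ |deriv (deriv v) x - deriv (deriv v') x| ≤ ε := by
  obtain ⟨ρ, s, M, hI⟩ := hD1 n hn
  have hρ : 0 < ρ := lt_of_lt_of_le hI.pos.1 hI.pos.2.1
  set η := min (ε * ρ) (ε * ρ ^ 2 / 2) with hη
  have hη0 : 0 < η := lt_min (by positivity) (by positivity)
  obtain ⟨δ, hδ, h⟩ := hI.stab K η hη0
  refine ⟨δ, hδ, fun v hv v' hv' hc x => ?_⟩
  have hid : (fun x : ℝ => x + 0) ∈ AA n := hD2.2.2.2.1 n hn 0
  have h1 := (h _ hid _ hid v hv v' hv' (fun x => by simpa using hδ.le) hc).2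
  have hcd := (d16_VV hv).c3
  have hcd' := (d16_VV hv').c3
  have := d16_cauchy (v := fun x => v x - v' x) (f := fun z => four v z - four v' z) hρ
    ((hI.vhol K v hv).sub (hI.vhol K v' hv'))
    (fun x => by
      show four v x - four v' x = ((v x - v' x : ℝ) : ℂ)
      rw [hI.vreal K v hv x, hI.vreal K v' hv' x, Complex.ofReal_sub]) (hcd.sub hcd') h1 x
  have e1 : deriv (fun x => v x - v' x) = fun x => deriv v x - deriv v' x := by
    funext t
    exact deriv_fun_sub (hcd.differentiable (by norm_num) t) (hcd'.differentiable (by norm_num) t)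
  have e2 : deriv (fun x => deriv v x - deriv v' x) x = deriv (deriv v) x - deriv (deriv v') x :=
    deriv_fun_sub ((d16_dcd hcd).differentiable (by norm_num) x)
      ((d16_dcd hcd').differentiable (by norm_num) x)
  rw [e1, e2] at this
  constructor
  · refine this.1.trans ?_
    rw [div_le_iff₀ hρ]
    exact min_le_left _ _
  · refine this.2.trans ?_
    rw [div_le_iff₀ (by positivity)]
    have := min_le_right (ε * ρ) (ε * ρ ^ 2 / 2)
    rw [← hη] at this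
    linarith

theorem d16_toV (hD2 : ST_D2) (n : ℕ) (hn : 1 ≤ n) :
    ∃ K : ℝ, ∀ Φ ∈ AA n, (fun x => Φ x - (x + Φ 0)) ∈ VV n K := by
  obtain ⟨K, hK, h⟩ := hD2.2.2.2.2.2.1 n hn
  refine ⟨max K 1, fun Φ hΦ => ⟨?_, fun x => ?_⟩⟩
  · have hΨ : (fun x : ℝ => x + Φ 0) ∈ AA n := hD2.2.2.2.1 n hn (Φ 0)
    have hm : 1 ≤ max K 1 := le_max_right _ _
    have hm0 : 0 < max K 1 := by linarith
    refine ⟨_, hD2.2.2.1 n hn _ hΨ Φ hΦ (1 / max K 1) (by positivity)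
      (by rw [div_le_one hm0]; exact hm), _, hΨ, ?_⟩
    funext x
    field_simp
    ring
  · have := h Φ hΦ x
    have e : Φ x - (x + Φ 0) = Φ x - x - Φ 0 := by ring
    show |Φ x - (x + Φ 0)| ≤ max K 1
    rw [e]
    exact this.trans (le_max_left _ _)

theorem d16_der {Φ : ℝ → ℝ} (h : IsLift Φ) (c : ℝ) (x : ℝ) :
    deriv Φ x = deriv (fun x => Φ x - (x + c)) x + 1 ∧
    deriv (deriv Φ) x = deriv (deriv (fun x => Φ x - (x + c))) x := by
  have e1 : deriv (fun x => Φ x - (x + c)) = fun x => deriv Φ x - 1 := by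
    funext t
    have h1 : HasDerivAt (fun x : ℝ => x + c) 1 t := (hasDerivAt_id' t).add_const c
    exact ((h.diff t).hasDerivAt.sub h1).deriv
  constructor
  · rw [e1]
    ring
  · rw [e1, deriv_sub_const]

theorem d16_data (hD1 : ST_D1) (hD2 : ST_D2) (n : ℕ) (hn : 1 ≤ n) : D16D n := by
  obtain ⟨K0, hK0⟩ := d16_toV hD2 n hn
  refine ⟨?_, d16_bv hD1 n hn, ?_, fun K ε hε => d16_cv hD1 hD2 n hn K ε hε⟩
  · obtain ⟨B, hB⟩ := d16_bv hD1 n hn K0
    refine ⟨B + 1, fun Φ hΦ x => ?_⟩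
    have h1 := hB _ (hK0 Φ hΦ) x
    have h2 := d16_der hΦ.1 (Φ 0) x
    rw [h2.1, h2.2]
    constructor
    · refine (abs_add_le _ _).trans ?_
      rw [abs_one]
      linarith [h1.1]
    · linarith [h1.2]
  · intro ε hε
    obtain ⟨δ, hδ, h⟩ := d16_cv hD1 hD2 n hn K0 ε hε
    refine ⟨δ / 2, by positivity, fun Φ hΦ Φ' hΦ' hc x => ?_⟩
    have h1 := h _ (hK0 Φ hΦ) _ (hK0 Φ' hΦ') (fun t => by
      have a1 := hc t
      have a2 := hc 0
      rw [abs_le] at a1 a2 ⊢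
      constructor <;> linarith) x
    have h2 := d16_der hΦ.1 (Φ 0) x
    have h3 := d16_der hΦ'.1 (Φ' 0) x
    rw [h2.1, h2.2, h3.1, h3.2]
    constructor
    · refine le_trans (le_of_eq ?_) h1.1
      congr 1
      ring
    · exact h1.2

/-! ### bounded uniformly continuous families -/

structure D16U (n p j : ℕ) (K : ℝ) (F : Sq → Sq → ℝ → ℝ) : Prop where
  bd : ∃ B : ℝ, 0 < B ∧ ∀ y v : Sq, (∀ k, y k ∈ AA n) → (∀ b, v b ∈ VV n K) → ∀ x, |F y v x| ≤ B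
  cl : ∀ ε : ℝ, 0 < ε → ∃ δ : ℝ, 0 < δ ∧ ∀ y y' v v' : Sq, (∀ k, y k ∈ AA n) → (∀ k, y' k ∈ AA n) →
    (∀ b, v b ∈ VV n K) → (∀ b, v' b ∈ VV n K) → (∀ k ≤ p, ∀ x, |y k x - y' k x| ≤ δ) →
    (∀ b < j, ∀ x, |v b x - v' b x| ≤ δ) → ∀ x, |F y v x - F y' v' x| ≤ ε

variable {n p j : ℕ} {K : ℝ} {F G : Sq → Sq → ℝ → ℝ}

theorem D16U.sub (hF : D16U n p j K F) (hG : D16U n p j K G) :
    D16U n p j K (fun y v x => F y v x - G y v x) := by
  obtain ⟨B, hB, h1⟩ := hF.bd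
  obtain ⟨B', hB', h2⟩ := hG.bd
  refine ⟨⟨B + B', by positivity, fun y v hy hv x => ?_⟩, fun ε hε => ?_⟩
  · exact (abs_sub _ _).trans (add_le_add (h1 y v hy hv x) (h2 y v hy hv x))
  · obtain ⟨δ, hδ, k1⟩ := hF.cl (ε / 2) (by positivity)
    obtain ⟨δ', hδ', k2⟩ := hG.cl (ε / 2) (by positivity)
    refine ⟨min δ δ', lt_min hδ hδ', fun y y' v v' hy hy' hv hv' hc hc' x => ?_⟩
    have a1 := k1 y y' v v' hy hy' hv hv' (fun k hk x => (hc k hk x).trans (min_le_left _ _))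
      (fun k hk x => (hc' k hk x).trans (min_le_left _ _)) x
    have a2 := k2 y y' v v' hy hy' hv hv' (fun k hk x => (hc k hk x).trans (min_le_right _ _))
      (fun k hk x => (hc' k hk x).trans (min_le_right _ _)) x
    rw [abs_le] at a1 a2 ⊢
    constructor <;> linarith

theorem D16U.mul (hF : D16U n p j K F) (hG : D16U n p j K G) :
    D16U n p j K (fun y v x => F y v x * G y v x) := by
  obtain ⟨B, hB, h1⟩ := hF.bd
  obtain ⟨B', hB', h2⟩ := hG.bd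
  refine ⟨⟨B * B', by positivity, fun y v hy hv x => ?_⟩, fun ε hε => ?_⟩
  · rw [abs_mul]
    exact mul_le_mul (h1 y v hy hv x) (h2 y v hy hv x) (abs_nonneg _) hB.le
  · obtain ⟨δ, hδ, k1⟩ := hF.cl (ε / (2 * B')) (by positivity)
    obtain ⟨δ', hδ', k2⟩ := hG.cl (ε / (2 * B)) (by positivity)
    refine ⟨min δ δ', lt_min hδ hδ', fun y y' v v' hy hy' hv hv' hc hc' x => ?_⟩
    have a1 := k1 y y' v v' hy hy' hv hv' (fun k hk x => (hc k hk x).trans (min_le_left _ _))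
      (fun k hk x => (hc' k hk x).trans (min_le_left _ _)) x
    have a2 := k2 y y' v v' hy hy' hv hv' (fun k hk x => (hc k hk x).trans (min_le_right _ _))
      (fun k hk x => (hc' k hk x).trans (min_le_right _ _)) x
    have e : F y v x * G y v x - F y' v' x * G y' v' x
        = F y v x * (G y v x - G y' v' x) + (F y v x - F y' v' x) * G y' v' x := by ring
    rw [e]
    refine (abs_add_le _ _).trans ?_
    rw [abs_mul, abs_mul]
    have b1 : |F y v x| * |G y v x - G y' v' x| ≤ B * (ε / (2 * B)) :=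
      mul_le_mul (h1 y v hy hv x) a2 (abs_nonneg _) hB.le
    have b2 : |F y v x - F y' v' x| * |G y' v' x| ≤ ε / (2 * B') * B' :=
      mul_le_mul a1 (h2 y' v' hy' hv' x) (abs_nonneg _) (by positivity)
    have c1 : B * (ε / (2 * B)) = ε / 2 := by field_simp
    have c2 : ε / (2 * B') * B' = ε / 2 := by field_simp
    linarith

theorem D16U.inv (hF : D16U n p j K F) (c : ℝ) (hc0 : 0 < c)
    (hc : ∀ y v : Sq, (∀ k, y k ∈ AA n) → ∀ x, c ≤ F y v x) :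
    D16U n p j K (fun y v x => (F y v x)⁻¹) := by
  refine ⟨⟨c⁻¹, by positivity, fun y v hy _ x => ?_⟩, fun ε hε => ?_⟩
  · have h := hc y v hy x
    have hp : 0 < F y v x := by linarith
    rw [abs_of_pos (by positivity)]
    exact inv_anti₀ hc0 h
  · obtain ⟨δ, hδ, k1⟩ := hF.cl (ε * c ^ 2) (by positivity)
    refine ⟨δ, hδ, fun y y' v v' hy hy' hv hv' h1 h2 x => ?_⟩
    have a := k1 y y' v v' hy hy' hv hv' h1 h2 x
    have h := hc y v hy x
    have h' := hc y' v' hy' x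
    have hp : 0 < F y v x := by linarith
    have hp' : 0 < F y' v' x := by linarith
    rw [inv_sub_inv hp.ne' hp'.ne', abs_div, abs_of_pos (mul_pos hp hp'), div_le_iff₀ (mul_pos hp hp'),
      abs_sub_comm]
    refine a.trans ?_
    have : c ^ 2 ≤ F y v x * F y' v' x := by nlinarith
    exact mul_le_mul_of_nonneg_left this hε.le

theorem D16U.log (hF : D16U n p j K F) (c : ℝ) (hc0 : 0 < c)
    (hc : ∀ y v : Sq, (∀ k, y k ∈ AA n) → ∀ x, c ≤ F y v x) :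
    D16U n p j K (fun y v x => Real.log (F y v x)) := by
  obtain ⟨B, hB, h1⟩ := hF.bd
  refine ⟨⟨B + c⁻¹, by positivity, fun y v hy hv x => ?_⟩, fun ε hε => ?_⟩
  · have h := hc y v hy x
    have hp : 0 < F y v x := by linarith
    have a1 := Real.log_le_sub_one_of_pos hp
    have a2 := Real.one_sub_inv_le_log_of_pos hp
    have a3 := h1 y v hy hv x
    have a4 : (F y v x)⁻¹ ≤ c⁻¹ := inv_anti₀ hc0 h
    have a5 : 0 < c⁻¹ := by positivity
    rw [abs_le] at a3 ⊢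
    constructor <;> linarith [a3.1, a3.2]
  · obtain ⟨δ, hδ, k1⟩ := hF.cl (ε * c) (by positivity)
    refine ⟨δ, hδ, fun y y' v v' hy hy' hv hv' h1 h2 x => ?_⟩
    have a := k1 y y' v v' hy hy' hv hv' h1 h2 x
    have key : ∀ s t : ℝ, c ≤ s → c ≤ t → |s - t| ≤ ε * c → Real.log s - Real.log t ≤ ε := by
      intro s t hs ht hst
      have hs0 : 0 < s := by linarith
      have ht0 : 0 < t := by linarith
      rw [← Real.log_div hs0.ne' ht0.ne']
      refine (Real.log_le_sub_one_of_pos (by positivity)).trans ?_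
      rw [div_sub_one ht0.ne', div_le_iff₀ ht0]
      have := (abs_le.1 hst).2
      nlinarith
    rw [abs_le]
    have b1 := key _ _ (hc y v hy x) (hc y' v' hy' x) a
    have b2 := key _ _ (hc y' v' hy' x) (hc y v hy x) (by rw [abs_sub_comm]; exact a)
    constructor <;> linarith

theorem d16_AA_low {Φ : ℝ → ℝ} (h : Φ ∈ AA n) (x : ℝ) : 1 / (n : ℝ) ≤ deriv Φ x := h.2.2 x

theorem d16_U_dy (hD : D16D n) (k : ℕ) (hk : k ≤ p) :
    D16U n p j K (fun y _ x => deriv (y k) x) ∧ D16U n p j K (fun y _ x => deriv (deriv (y k)) x) := by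
  obtain ⟨B, hB⟩ := hD.bΦ
  refine ⟨⟨⟨|B| + 1, by positivity, fun y v hy _ x => ?_⟩, fun ε hε => ?_⟩,
    ⟨⟨|B| + 1, by positivity, fun y v hy _ x => ?_⟩, fun ε hε => ?_⟩⟩
  · exact (hB _ (hy k) x).1.trans ((le_abs_self B).trans (by linarith))
  · obtain ⟨δ, hδ, h⟩ := hD.cΦ ε hε
    exact ⟨δ, hδ, fun y y' v v' hy hy' _ _ h1 _ x => (h _ (hy k) _ (hy' k) (h1 k hk) x).1⟩
  · exact (hB _ (hy k) x).2.trans ((le_abs_self B).trans (by linarith))
  · obtain ⟨δ, hδ, h⟩ := hD.cΦ ε hε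
    exact ⟨δ, hδ, fun y y' v v' hy hy' _ _ h1 _ x => (h _ (hy k) _ (hy' k) (h1 k hk) x).2⟩

theorem d16_U_dv (hD : D16D n) (b : ℕ) (hb : b < j) :
    D16U n p j K (fun _ v x => deriv (v b) x) ∧ D16U n p j K (fun _ v x => deriv (deriv (v b)) x) := by
  obtain ⟨B, hB⟩ := hD.bv K
  refine ⟨⟨⟨|B| + 1, by positivity, fun y v _ hv x => ?_⟩, fun ε hε => ?_⟩,
    ⟨⟨|B| + 1, by positivity, fun y v _ hv x => ?_⟩, fun ε hε => ?_⟩⟩
  · exact (hB _ (hv b) x).1.trans ((le_abs_self B).trans (by linarith))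
  · obtain ⟨δ, hδ, h⟩ := hD.cv K ε hε
    exact ⟨δ, hδ, fun y y' v v' _ _ hv hv' _ h1 x => (h _ (hv b) _ (hv' b) (h1 b hb) x).1⟩
  · exact (hB _ (hv b) x).2.trans ((le_abs_self B).trans (by linarith))
  · obtain ⟨δ, hδ, h⟩ := hD.cv K ε hε
    exact ⟨δ, hδ, fun y y' v v' _ _ hv hv' _ h1 x => (h _ (hv b) _ (hv' b) (h1 b hb) x).2⟩

theorem d16_U_inv (hn : 1 ≤ n) (hD : D16D n) (k : ℕ) (hk : k ≤ p) :
    D16U n p j K (fun y _ x => (deriv (y k) x)⁻¹) := by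
  have hn0 : (0 : ℝ) < n := by exact_mod_cast hn
  exact (d16_U_dy hD k hk).1.inv (1 / (n : ℝ)) (by positivity) (fun y _ hy x => d16_AA_low (hy k) x)

theorem d16_U_l (hn : 1 ≤ n) (hD : D16D n) (k : ℕ) (hk : k ≤ p) :
    D16U n p j K (fun y _ x => d16_l (y k) x) := by
  have hn0 : (0 : ℝ) < n := by exact_mod_cast hn
  exact (d16_U_dy hD k hk).1.log (1 / (n : ℝ)) (by positivity) (fun y _ hy x => d16_AA_low (hy k) x)

/-! derivatives of `l`, `la` -/

theorem d16_l_deriv {Φ : ℝ → ℝ} (h : IsLift Φ) (x : ℝ) :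
    deriv (d16_l Φ) x = deriv (deriv Φ) x * (deriv Φ x)⁻¹ := by
  have h1 : HasDerivAt (deriv Φ) (deriv (deriv Φ) x) x :=
    ((d16_dcd (d16_cd h)).differentiable (by norm_num) x).hasDerivAt
  exact (h1.log (h.pos x).ne').deriv

theorem d16_la_deriv {Φ v : ℝ → ℝ} (h : IsLift Φ) (hv : D16V v) (x : ℝ) :
    deriv (d16_la Φ v) x = (deriv (deriv v) x * deriv Φ x - deriv v x * deriv (deriv Φ) x)
      * ((deriv Φ x)⁻¹ * (deriv Φ x)⁻¹) := by
  have h1 : HasDerivAt (deriv Φ) (deriv (deriv Φ) x) x :=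
    ((d16_dcd (d16_cd h)).differentiable (by norm_num) x).hasDerivAt
  have h2 : HasDerivAt (deriv v) (deriv (deriv v) x) x :=
    ((d16_dcd hv.c3).differentiable (by norm_num) x).hasDerivAt
  have h3 := (h2.div h1 (h.pos x).ne').deriv
  have hp := h.pos x
  refine Eq.trans h3 ?_
  field_simp

theorem d16_U_congr (hF : D16U n p j K F)
    (h : ∀ y v : Sq, (∀ k, y k ∈ AA n) → (∀ b, v b ∈ VV n K) → ∀ x, F y v x = G y v x) :
    D16U n p j K G := by
  obtain ⟨B, hB, h1⟩ := hF.bd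
  refine ⟨⟨B, hB, fun y v hy hv x => by rw [← h y v hy hv x]; exact h1 y v hy hv x⟩, fun ε hε => ?_⟩
  obtain ⟨δ, hδ, k⟩ := hF.cl ε hε
  refine ⟨δ, hδ, fun y y' v v' hy hy' hv hv' h1 h2 x => ?_⟩
  rw [← h y v hy hv x, ← h y' v' hy' hv' x]
  exact k y y' v v' hy hy' hv hv' h1 h2 x

theorem d16_U_dl (hn : 1 ≤ n) (hD : D16D n) (k : ℕ) (hk : k ≤ p) :
    D16U n p j K (fun y _ x => deriv (d16_l (y k)) x) :=
  d16_U_congr ((d16_U_dy hD k hk).2.mul (d16_U_inv hn hD k hk))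
    (fun _ _ hy _ x => (d16_l_deriv (hy k).1 x).symm)

theorem d16_U_la (hn : 1 ≤ n) (hD : D16D n) (k b : ℕ) (hk : k ≤ p) (hb : b < j) :
    D16U n p j K (fun y v x => d16_la (y k) (v b) x) :=
  d16_U_congr ((d16_U_dv hD b hb).1.mul (d16_U_inv hn hD k hk)) (fun _ _ _ _ _ => rfl)

theorem d16_U_dla (hn : 1 ≤ n) (hD : D16D n) (k b : ℕ) (hk : k ≤ p) (hb : b < j) :
    D16U n p j K (fun y v x => deriv (d16_la (y k) (v b)) x) :=
  d16_U_congr ((((d16_U_dv hD b hb).2.mul (d16_U_dy hD k hk).1).sub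
    ((d16_U_dv hD b hb).1.mul (d16_U_dy hD k hk).2)).mul
      ((d16_U_inv hn hD k hk).mul (d16_U_inv hn hD k hk)))
    (fun _ _ hy hv x => (d16_la_deriv (hy k).1 (d16_VV (hv b)) x).symm)

/-- the integral -/
theorem d16_U_w (F G : Sq → Sq → ℝ → ℝ) (hF : D16U n p j K F)
    (hG : D16U n p j K (fun y v x => deriv (G y v) x))
    (hFN : ∀ y v : Sq, (∀ k, y k ∈ AA n) → (∀ b, v b ∈ VV n K) → D16N (F y v))
    (hGN : ∀ y v : Sq, (∀ k, y k ∈ AA n) → (∀ b, v b ∈ VV n K) → D16N (G y v)) :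
    D16U n p j K (fun y v _ => d16_w (F y v) (G y v)) := by
  have H := hF.mul hG
  obtain ⟨B, hB, h1⟩ := H.bd
  refine ⟨⟨B, hB, fun y v hy hv _ => ?_⟩, fun ε hε => ?_⟩
  · have := intervalIntegral.norm_integral_le_of_norm_le_const (a := 0) (b := 1) (C := B)
      (f := fun x => F y v x * deriv (G y v) x) (fun x _ => h1 y v hy hv x)
    rw [sub_zero, abs_one, mul_one] at this
    exact this
  · obtain ⟨δ, hδ, k⟩ := H.cl ε hε
    refine ⟨δ, hδ, fun y y' v v' hy hy' hv hv' h1 h2 _ => ?_⟩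
    have := intervalIntegral.norm_integral_le_of_norm_le_const (a := 0) (b := 1) (C := ε)
      (f := fun x => F y v x * deriv (G y v) x - F y' v' x * deriv (G y' v') x)
      (fun x _ => k y y' v v' hy hy' hv hv' h1 h2 x)
    rw [sub_zero, abs_one, mul_one, intervalIntegral.integral_sub
      (d16_w_int (hFN y v hy hv) (hGN y v hy hv) _ _)
      (d16_w_int (hFN y' v' hy' hv') (hGN y' v' hy' hv') _ _)] at this
    exact this

theorem d16_sub_deriv {f g : ℝ → ℝ} (hf : D16N f) (hg : D16N g) (x : ℝ) :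
    deriv (fun t => f t - g t) x = deriv f x - deriv g x := deriv_fun_sub (hf.diff x) (hg.diff x)

theorem d16_U_K (hn : 1 ≤ n) (hD : D16D n) (i : ℕ) (hi : 2 * i + 2 ≤ p) :
    D16U n p j K (fun y v _ => d16_K j i y v) := by
  unfold d16_K
  split_ifs with a b
  · exact d16_U_w (fun y v => d16_la (y (2 * i)) (v (2 * i)))
      (fun y v => d16_la (y (2 * i + 1)) (v (2 * i + 1)))
      (d16_U_la hn hD _ _ (by omega) (by omega)) (d16_U_dla hn hD _ _ (by omega) (by omega))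
      (fun y v hy hv => d16_laN (hy _).1 (d16_VV (hv _)))
      (fun y v hy hv => d16_laN (hy _).1 (d16_VV (hv _)))
  · exact d16_U_w (fun y v => d16_la (y (2 * i)) (v (2 * i)))
      (fun y v => fun x => d16_l (y (2 * i + 1)) x - d16_l (y (2 * i + 2)) x)
      (d16_U_la hn hD _ _ (by omega) (by omega))
      (d16_U_congr ((d16_U_dl hn hD _ (by omega)).sub (d16_U_dl hn hD _ (by omega)))
        (fun y v hy hv x => (d16_sub_deriv (d16_lN (hy _).1) (d16_lN (hy _).1) x).symm))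
      (fun y v hy hv => d16_laN (hy _).1 (d16_VV (hv _)))
      (fun y v hy hv => (d16_lN (hy _).1).sub (d16_lN (hy _).1))
  · exact d16_U_w (fun y v => fun x => d16_l (y (2 * i)) x - d16_l (y (2 * i + 2)) x)
      (fun y v => fun x => d16_l (y (2 * i + 1)) x - d16_l (y (2 * i + 2)) x)
      ((d16_U_l hn hD _ (by omega)).sub (d16_U_l hn hD _ (by omega)))
      (d16_U_congr ((d16_U_dl hn hD _ (by omega)).sub (d16_U_dl hn hD _ (by omega)))
        (fun y v hy hv x => (d16_sub_deriv (d16_lN (hy _).1) (d16_lN (hy _).1) x).symm))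
      (fun y v hy hv => (d16_lN (hy _).1).sub (d16_lN (hy _).1))
      (fun y v hy hv => (d16_lN (hy _).1).sub (d16_lN (hy _).1))

theorem d16_U_one : D16U n p j K (fun _ _ _ => 1) := by
  refine ⟨⟨1, one_pos, fun _ _ _ _ _ => by simp⟩, fun ε hε => ⟨1, one_pos, ?_⟩⟩
  intro y y' v v' _ _ _ _ _ _ x
  simpa using hε.le

theorem d16_U_r (hn : 1 ≤ n) (hD : D16D n) (m : ℕ) (hm : 2 * m ≤ p) :
    D16U n p j K (fun y v _ => d16_r m j y v) := by
  unfold d16_r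
  induction m with
  | zero => simpa using d16_U_one
  | succ m ih =>
    simp only [Finset.prod_range_succ]
    exact (ih (by omega)).mul (d16_U_K hn hD m (by omega))

theorem d16_uc (hD1 : ST_D1) (hD2 : ST_D2) (n m : ℕ) (hn : 1 ≤ n) : ∀ j ≤ 2 * m, ∀ K : ℝ, ∀ ε : ℝ,
    0 < ε → ∃ δ : ℝ, 0 < δ ∧ ∀ y y' v v' : Sq, (∀ k, y k ∈ AA n) → (∀ k, y' k ∈ AA n) →
    (∀ b, v b ∈ VV n K) → (∀ b, v' b ∈ VV n K) → (∀ k ≤ 2 * m, ∀ x, |y k x - y' k x| ≤ δ) →
    (∀ b < j, ∀ x, |v b x - v' b x| ≤ δ) → ‖d16_c m j y v - d16_c m j y' v'‖ ≤ ε := by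
  intro j _ K ε hε
  obtain ⟨δ, hδ, h⟩ := (d16_U_r (p := 2 * m) (j := j) (K := K) hn (d16_data hD1 hD2 n hn) m
    (le_refl _)).cl ε hε
  refine ⟨δ, hδ, fun y y' v v' hy hy' hv hv' h1 h2 => ?_⟩
  have := h y y' v v' hy hy' hv hv' h1 h2 0
  rw [d16_c, d16_c, ← Complex.ofReal_sub, Complex.norm_real]
  exact this

end

end Pool.Agent.Helper67.DO
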