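import Pool.Agent.Helper35.DO.D16b

/-! D16, part c: smooth functions of the point of the simplex. -/

set_option autoImplicit false

namespace Pool.Agent.Helper67.DO

open scoped BigOperators Real
open MeasureTheory

noncomputable section

def d16_chi (n : ℕ) (s : ℝ) : ℝ := Real.smoothTransition (4 * n * s - 1)

def d16_L (n : ℕ) (s : ℝ) : ℝ := d16_chi n s * Real.log s

def d16_I (n : ℕ) (s : ℝ) : ℝ := d16_chi n s * s⁻¹

theorem d16_chi_cd (n : ℕ) : ContDiff ℝ 2 (d16_chi n) := by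
  unfold d16_chi
  exact (Real.smoothTransition.contDiff (n := 2)).comp
    ((contDiff_const.mul contDiff_id).sub contDiff_const)

theorem d16_chi_zero (n : ℕ) (hn : 1 ≤ n) {s : ℝ} (hs : s ≤ 1 / (4 * n)) : d16_chi n s = 0 := by
  have hn0 : (0 : ℝ) < n := by exact_mod_cast hn
  apply Real.smoothTransition.zero_of_nonpos
  rw [le_div_iff₀ (by positivity)] at hs
  linarith

theorem d16_chi_one (n : ℕ) (hn : 1 ≤ n) {s : ℝ} (hs : 1 / (2 * n) ≤ s) : d16_chi n s = 1 := by
  have hn0 : (0 : ℝ) < n := by exact_mod_cast hn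
  apply Real.smoothTransition.one_of_one_le
  rw [div_le_iff₀ (by positivity)] at hs
  linarith

theorem d16_mul_cd (n : ℕ) (hn : 1 ≤ n) (f : ℝ → ℝ) (hf : ∀ s : ℝ, 0 < s → ContDiffAt ℝ 2 f s) :
    ContDiff ℝ 2 (fun s => d16_chi n s * f s) := by
  have hn0 : (0 : ℝ) < n := by exact_mod_cast hn
  rw [contDiff_iff_contDiffAt]
  intro s
  by_cases hs : s < 1 / (4 * n)
  · have : ContDiffAt ℝ 2 (fun _ : ℝ => (0 : ℝ)) s := contDiffAt_const
    apply this.congr_of_eventuallyEq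
    filter_upwards [Iio_mem_nhds hs] with x hx
    rw [d16_chi_zero n hn (le_of_lt hx), zero_mul]
  · push Not at hs
    have : 0 < s := lt_of_lt_of_le (by positivity) hs
    exact (d16_chi_cd n).contDiffAt.mul (hf s this)

theorem d16_L_cd (n : ℕ) (hn : 1 ≤ n) : ContDiff ℝ 2 (d16_L n) :=
  d16_mul_cd n hn Real.log (fun _ hs => Real.contDiffAt_log.2 hs.ne')

theorem d16_I_cd (n : ℕ) (hn : 1 ≤ n) : ContDiff ℝ 2 (d16_I n) :=
  d16_mul_cd n hn (fun s => s⁻¹) (fun _ hs => contDiffAt_inv ℝ hs.ne')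

theorem d16_ev (n : ℕ) (hn : 1 ≤ n) (f : ℝ → ℝ) {s : ℝ} (hs : 1 / (n : ℝ) ≤ s) :
    (fun s => d16_chi n s * f s) =ᶠ[nhds s] f := by
  have hn0 : (0 : ℝ) < n := by exact_mod_cast hn
  have h1 : 1 / (2 * (n : ℝ)) < s := by
    refine lt_of_lt_of_le ?_ hs
    rw [div_lt_div_iff₀ (by positivity) hn0]
    linarith
  filter_upwards [Ioi_mem_nhds h1] with x hx
  rw [d16_chi_one n hn (le_of_lt hx), one_mul]

theorem d16_L_eq (n : ℕ) (hn : 1 ≤ n) {s : ℝ} (hs : 1 / (n : ℝ) ≤ s) :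
    d16_L n s = Real.log s ∧ deriv (d16_L n) s = s⁻¹ := by
  have hn0 : (0 : ℝ) < n := by exact_mod_cast hn
  have h := d16_ev n hn Real.log hs
  refine ⟨h.eq_of_nhds, ?_⟩
  have h2 : deriv (d16_L n) s = deriv Real.log s := h.deriv_eq
  rw [h2, Real.deriv_log]

theorem d16_I_eq (n : ℕ) (hn : 1 ≤ n) {s : ℝ} (hs : 1 / (n : ℝ) ≤ s) :
    d16_I n s = s⁻¹ ∧ deriv (d16_I n) s = - (s ^ 2)⁻¹ := by
  have h := d16_ev n hn (fun s => s⁻¹) hs
  refine ⟨h.eq_of_nhds, ?_⟩
  have h2 : deriv (d16_I n) s = deriv (fun s => s⁻¹) s := h.deriv_eq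
  rw [h2, deriv_inv]

/-! ### values -/

def d16_val (n b : ℕ) (Φ : ℝ → ℝ) (t : ℝ) : ℝ :=
  if b % 2 = 0 then d16_L n (deriv Φ t) else d16_I n (deriv Φ t) * deriv (deriv Φ) t

def d16_dval (n b : ℕ) (Φ d : ℝ → ℝ) (t : ℝ) : ℝ :=
  if b % 2 = 0 then deriv (d16_L n) (deriv Φ t) * deriv d t
  else deriv (d16_I n) (deriv Φ t) * deriv d t * deriv (deriv Φ) t
    + d16_I n (deriv Φ t) * deriv (deriv d) t

theorem d16_val_even (n b : ℕ) (hn : 1 ≤ n) (hb : b % 2 = 0) {Φ : ℝ → ℝ} (h : Φ ∈ AA n) (t : ℝ) :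
    d16_val n b Φ t = d16_l Φ t := by
  rw [d16_val, if_pos hb, (d16_L_eq n hn (d16_AA_low h t)).1]
  rfl

theorem d16_val_odd (n b : ℕ) (hn : 1 ≤ n) (hb : b % 2 = 1) {Φ : ℝ → ℝ} (h : Φ ∈ AA n) (t : ℝ) :
    d16_val n b Φ t = deriv (d16_l Φ) t := by
  rw [d16_val, if_neg (by omega), (d16_I_eq n hn (d16_AA_low h t)).1, d16_l_deriv h.1]
  ring

theorem d16_dval_even (n b : ℕ) (hn : 1 ≤ n) (hb : b % 2 = 0) {Φ : ℝ → ℝ} (h : Φ ∈ AA n)
    (d : ℝ → ℝ) (t : ℝ) : d16_dval n b Φ d t = d16_la Φ d t := by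
  rw [d16_dval, if_pos hb, (d16_L_eq n hn (d16_AA_low h t)).2, d16_la]
  ring

theorem d16_dval_odd (n b : ℕ) (hn : 1 ≤ n) (hb : b % 2 = 1) {Φ : ℝ → ℝ} (h : Φ ∈ AA n)
    {d : ℝ → ℝ} (hd : D16V d) (t : ℝ) : d16_dval n b Φ d t = deriv (d16_la Φ d) t := by
  have hp := h.1.pos t
  rw [d16_dval, if_neg (by omega), (d16_I_eq n hn (d16_AA_low h t)).1,
    (d16_I_eq n hn (d16_AA_low h t)).2, d16_la_deriv h.1 hd]
  field_simp
  ring

/-! ### the simplex -/

theorem d16_lam_cd (q i : ℕ) : ContDiff ℝ 2 (lam q i) := by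
  unfold lam
  apply ContDiff.mul
  · apply contDiff_prod
    intro k _
    split_ifs
    · exact contDiff_apply ℝ ℝ k
    · exact contDiff_const
  · apply contDiff_prod
    intro k _
    split_ifs
    · exact contDiff_const.sub (contDiff_apply ℝ ℝ k)
    · exact contDiff_const

theorem d16_lam_fd (q i : ℕ) (a : Fin q) (u : Fin q → ℝ) :
    fderiv ℝ (lam q i) u (Pi.single a 1) = dlam q i a u := by
  have h1 : HasFDerivAt (lam q i) (fderiv ℝ (lam q i) u) (Function.update u a (u a)) := by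
    rw [Function.update_eq_self]
    exact ((d16_lam_cd q i).differentiable (by norm_num) u).hasFDerivAt
  have h2 := h1.comp_hasDerivAt (u a) (hasDerivAt_update u a (u a))
  exact h2.deriv.symm

theorem d16_dlam_cont (q i : ℕ) (a : Fin q) : Continuous (dlam q i a) := by
  have : dlam q i a = fun u => fderiv ℝ (lam q i) u (Pi.single a 1) := by
    funext u
    exact (d16_lam_fd q i a u).symm
  rw [this]
  exact ((d16_lam_cd q i).continuous_fderiv (by norm_num)).clm_apply continuous_const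

theorem d16_sum_deriv (q : ℕ) (c : ℕ → ℝ) (y : Sq) (hy : ∀ k, Differentiable ℝ (y k)) :
    deriv (fun x => ∑ i ∈ Finset.range (q + 1), c i * y i x)
      = fun x => ∑ i ∈ Finset.range (q + 1), c i * deriv (y i) x := by
  funext x
  have : HasDerivAt (fun x => ∑ i ∈ Finset.range (q + 1), c i * y i x)
      (∑ i ∈ Finset.range (q + 1), c i * deriv (y i) x) x := by
    apply HasDerivAt.fun_sum
    intro i _
    exact ((hy i x).hasDerivAt).const_mul (c i)
  exact this.deriv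

/-- smooth sequences -/
def D16S (y : Sq) : Prop := ∀ k, ContDiff ℝ 3 (y k)

theorem d16_S_AA {n : ℕ} {y : Sq} (hy : ∀ k, y k ∈ AA n) : D16S y := fun k => d16_cd (hy k).1

theorem D16S.rm {y : Sq} (h : D16S y) (i : ℕ) : D16S (rm i y) := by
  intro k
  unfold DO.rm
  split_ifs
  · exact h _
  · exact h _

theorem d16_S1 {y : Sq} (h : D16S y) (k : ℕ) : Differentiable ℝ (y k) :=
  (h k).differentiable (by norm_num)

theorem d16_S2 {y : Sq} (h : D16S y) (k : ℕ) : Differentiable ℝ (deriv (y k)) :=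
  (d16_dcd (h k)).differentiable (by norm_num)

theorem d16_Phi1 (q : ℕ) {y : Sq} (h : D16S y) (u : Fin q → ℝ) :
    deriv (Phi q y u) = fun x => ∑ i ∈ Finset.range (q + 1), lam q i u * deriv (y i) x :=
  d16_sum_deriv q (fun i => lam q i u) y (d16_S1 h)

theorem d16_Phi2 (q : ℕ) {y : Sq} (h : D16S y) (u : Fin q → ℝ) :
    deriv (deriv (Phi q y u))
      = fun x => ∑ i ∈ Finset.range (q + 1), lam q i u * deriv (deriv (y i)) x := by
  rw [d16_Phi1 q h u]
  exact d16_sum_deriv q (fun i => lam q i u) (fun k => deriv (y k)) (d16_S2 h)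

theorem d16_dPhi1 (q : ℕ) {y : Sq} (h : D16S y) (a : Fin q) (u : Fin q → ℝ) :
    deriv (dPhi q y a u) = fun x => ∑ i ∈ Finset.range (q + 1), dlam q i a u * deriv (y i) x :=
  d16_sum_deriv q (fun i => dlam q i a u) y (d16_S1 h)

theorem d16_dPhi2 (q : ℕ) {y : Sq} (h : D16S y) (a : Fin q) (u : Fin q → ℝ) :
    deriv (deriv (dPhi q y a u))
      = fun x => ∑ i ∈ Finset.range (q + 1), dlam q i a u * deriv (deriv (y i)) x := by
  rw [d16_dPhi1 q h a u]
  exact d16_sum_deriv q (fun i => dlam q i a u) (fun k => deriv (y k)) (d16_S2 h)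

theorem d16_lin_cd (q : ℕ) (α : ℕ → ℝ) :
    ContDiff ℝ 2 (fun u : Fin q → ℝ => ∑ i ∈ Finset.range (q + 1), lam q i u * α i) := by
  apply ContDiff.sum
  intro i _
  exact (d16_lam_cd q i).mul contDiff_const

theorem d16_lin_fd (q : ℕ) (α : ℕ → ℝ) (a : Fin q) (u : Fin q → ℝ) :
    fderiv ℝ (fun u : Fin q → ℝ => ∑ i ∈ Finset.range (q + 1), lam q i u * α i) u (Pi.single a 1)
      = ∑ i ∈ Finset.range (q + 1), dlam q i a u * α i := by
  have h : HasFDerivAt (fun u : Fin q → ℝ => ∑ i ∈ Finset.range (q + 1), lam q i u * α i)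
      (∑ i ∈ Finset.range (q + 1), α i • fderiv ℝ (lam q i) u) u := by
    apply HasFDerivAt.fun_sum
    intro i _
    exact (((d16_lam_cd q i).differentiable (by norm_num) u).hasFDerivAt).mul_const (α i)
  rw [h.fderiv, _root_.sum_apply]
  apply Finset.sum_congr rfl
  intro i _
  rw [_root_.smul_apply, d16_lam_fd, smul_eq_mul, mul_comm]

theorem d16_val_cd (n b q : ℕ) (hn : 1 ≤ n) {y : Sq} (h : D16S y) (t : ℝ) :
    ContDiff ℝ 2 (fun u : Fin q → ℝ => d16_val n b (Phi q y u) t) := by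
  unfold d16_val
  simp only [d16_Phi2 q h]
  simp only [d16_Phi1 q h]
  split_ifs
  · exact (d16_L_cd n hn).comp (d16_lin_cd q _)
  · exact ((d16_I_cd n hn).comp (d16_lin_cd q _)).mul (d16_lin_cd q _)

theorem d16_val_fd (n b q : ℕ) (hn : 1 ≤ n) {y : Sq} (h : D16S y) (t : ℝ) (a : Fin q)
    (u : Fin q → ℝ) : fderiv ℝ (fun u : Fin q → ℝ => d16_val n b (Phi q y u) t) u (Pi.single a 1)
      = d16_dval n b (Phi q y u) (dPhi q y a u) t := by
  unfold d16_val d16_dval
  simp only [d16_Phi2 q h, d16_dPhi2 q h]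
  simp only [d16_Phi1 q h, d16_dPhi1 q h]
  have hA := ((d16_lin_cd q (fun i => deriv (y i) t)).differentiable (by norm_num) u).hasFDerivAt
  have hA2 := ((d16_lin_cd q (fun i => deriv (deriv (y i)) t)).differentiable
    (by norm_num) u).hasFDerivAt
  split_ifs
  · have h1 := (((d16_L_cd n hn).differentiable (by norm_num)
      (∑ i ∈ Finset.range (q + 1), lam q i u * deriv (y i) t)).hasDerivAt).comp_hasFDerivAt u hA
    have h2 := h1.fderiv
    have h3 : (fun u : Fin q → ℝ => d16_L n (∑ i ∈ Finset.range (q + 1), lam q i u * deriv (y i) t))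
        = d16_L n ∘ fun u : Fin q → ℝ => ∑ i ∈ Finset.range (q + 1), lam q i u * deriv (y i) t := rfl
    rw [h3, h2, _root_.smul_apply, d16_lin_fd, smul_eq_mul]
  · have h1 := (((d16_I_cd n hn).differentiable (by norm_num)
      (∑ i ∈ Finset.range (q + 1), lam q i u * deriv (y i) t)).hasDerivAt).comp_hasFDerivAt u hA
    have h2 := (h1.mul hA2).fderiv
    have h3 : (fun u : Fin q → ℝ => d16_I n (∑ i ∈ Finset.range (q + 1), lam q i u * deriv (y i) t) *
        ∑ i ∈ Finset.range (q + 1), lam q i u * deriv (deriv (y i)) t)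
        = (d16_I n ∘ fun u : Fin q → ℝ => ∑ i ∈ Finset.range (q + 1), lam q i u * deriv (y i) t) *
          (fun u : Fin q → ℝ => ∑ i ∈ Finset.range (q + 1), lam q i u * deriv (deriv (y i)) t) := rfl
    rw [h3, h2, _root_.add_apply, _root_.smul_apply,
      _root_.smul_apply, _root_.smul_apply, d16_lin_fd, d16_lin_fd]
    simp only [smul_eq_mul, Function.comp]
    ring

/-- joint continuity -/
theorem d16_lin_cont (q : ℕ) (c : ℕ → (Fin q → ℝ) → ℝ) (g : ℕ → ℝ → ℝ) (hc : ∀ i, Continuous (c i))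
    (hg : ∀ i, Continuous (g i)) :
    Continuous (fun w : (Fin q → ℝ) × ℝ => ∑ i ∈ Finset.range (q + 1), c i w.1 * g i w.2) := by
  apply continuous_finsetSum
  intro i _
  exact ((hc i).comp continuous_fst).mul ((hg i).comp continuous_snd)

theorem d16_val_cont (n b q : ℕ) (hn : 1 ≤ n) {y : Sq} (h : D16S y) :
    Continuous (fun w : (Fin q → ℝ) × ℝ => d16_val n b (Phi q y w.1) w.2) := by
  have h1 := d16_lin_cont q (fun i => lam q i) (fun i => deriv (y i))
    (fun i => (d16_lam_cd q i).continuous) (fun i => (d16_dcd (h i)).continuous)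
  have h2 := d16_lin_cont q (fun i => lam q i) (fun i => deriv (deriv (y i)))
    (fun i => (d16_lam_cd q i).continuous) (fun i => (d16_ddcd (h i)).continuous)
  unfold d16_val
  simp only [d16_Phi2 q h]
  simp only [d16_Phi1 q h]
  split_ifs
  · exact (d16_L_cd n hn).continuous.comp h1
  · exact ((d16_I_cd n hn).continuous.comp h1).mul h2

theorem d16_dval_cont (n b q : ℕ) (hn : 1 ≤ n) {y : Sq} (h : D16S y) (a : Fin q) :
    Continuous (fun w : (Fin q → ℝ) × ℝ => d16_dval n b (Phi q y w.1) (dPhi q y a w.1) w.2) := by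
  have h1 := d16_lin_cont q (fun i => lam q i) (fun i => deriv (y i))
    (fun i => (d16_lam_cd q i).continuous) (fun i => (d16_dcd (h i)).continuous)
  have h2 := d16_lin_cont q (fun i => lam q i) (fun i => deriv (deriv (y i)))
    (fun i => (d16_lam_cd q i).continuous) (fun i => (d16_ddcd (h i)).continuous)
  have h3 := d16_lin_cont q (fun i => dlam q i a) (fun i => deriv (y i))
    (fun i => d16_dlam_cont q i a) (fun i => (d16_dcd (h i)).continuous)
  have h4 := d16_lin_cont q (fun i => dlam q i a) (fun i => deriv (deriv (y i)))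
    (fun i => d16_dlam_cont q i a) (fun i => (d16_ddcd (h i)).continuous)
  have hL := (d16_L_cd n hn).continuous_deriv (by norm_num)
  have hI := (d16_I_cd n hn).continuous_deriv (by norm_num)
  unfold d16_dval
  simp only [d16_Phi2 q h, d16_dPhi2 q h]
  simp only [d16_Phi1 q h, d16_dPhi1 q h]
  split_ifs
  · exact (hL.comp h1).mul h3
  · exact (((hI.comp h1).mul h3).mul h2).add (((d16_I_cd n hn).continuous.comp h1).mul h4)

end

end Pool.Agent.Helper67.DO
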