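import Pool.Agent.Helper35.DO.D16c

/-! D16, part d: the identity (M3). -/

set_option autoImplicit false

namespace Pool.Agent.Helper67.DO

open scoped BigOperators Real
open MeasureTheory

noncomputable section

def d16_xh (r : ℕ) (x : Fin (r + 1) → ℝ) (i : ℕ) : ℝ := if h : i < r + 1 then x ⟨i, h⟩ else 0

theorem d16_xh_cont (r i : ℕ) : Continuous (fun x : Fin (r + 1) → ℝ => d16_xh r x i) := by
  unfold d16_xh
  split_ifs with h
  · exact continuous_apply _
  · exact continuous_const

/-- product of functions of one variable -/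
def d16_T (j r : ℕ) (κ : ℕ → ℝ → ℝ) (last : ℝ → ℝ) (x : Fin (r + 1) → ℝ) : ℝ :=
  (∏ b ∈ Finset.range j, κ b (d16_xh r x (b / 2))) * last (d16_xh r x r)

/-- the form of degree `j` -/
def d16_f (n j : ℕ) (α β : ℝ → ℝ) (y : Sq) (x : Fin (j / 2 + 1) → ℝ) (u : Fin j → ℝ) : ℂ :=
  ∑ σ : Equiv.Perm (Fin j), ((Equiv.Perm.sign σ : ℤ) : ℂ) *
    ((d16_T j (j / 2) (fun b t => d16_dval n b (Phi j y u) (dirs y u σ b) t)
      (fun t => d16_val n j (Phi j y u) t * α t + β t) x : ℝ) : ℂ)

/-- its differential -/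
def d16_g (n j : ℕ) (α : ℝ → ℝ) (y : Sq) (x : Fin (j / 2 + 1) → ℝ) (u : Fin (j + 1) → ℝ) : ℂ :=
  ∑ σ : Equiv.Perm (Fin (j + 1)), ((Equiv.Perm.sign σ : ℤ) : ℂ) *
    ((d16_T j (j / 2) (fun b t => d16_dval n b (Phi (j + 1) y u) (dirs y u σ b) t)
      (fun t => d16_dval n j (Phi (j + 1) y u) (dirs y u σ j) t * α t) x : ℝ) : ℂ)

theorem d16_ofReal_fd {q : ℕ} {f : (Fin q → ℝ) → ℝ} (hf : Differentiable ℝ f) (u e : Fin q → ℝ) :
    fderiv ℝ (fun u => ((f u : ℝ) : ℂ)) u e = ((fderiv ℝ f u e : ℝ) : ℂ) := by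
  have h := (Complex.ofRealCLM.hasFDerivAt (x := f u)).comp u (hf u).hasFDerivAt
  have h2 : (fun u => ((f u : ℝ) : ℂ)) = (⇑Complex.ofRealCLM ∘ f) := rfl
  rw [h2, h.fderiv]
  rfl

theorem d16_dirs {q : ℕ} (y : Sq) (u : Fin q → ℝ) (σ : Fin q → Fin q) (b : Fin q) :
    dirs y u σ b = dPhi q y (σ b) u := by
  unfold dirs
  rw [dif_pos b.2]

theorem d16_dval_zero (n b : ℕ) (Φ : ℝ → ℝ) (t : ℝ) : d16_dval n b Φ (fun _ => 0) t = 0 := by
  unfold d16_dval
  simp

theorem d16_S (hD9 : ST_D9) (hD10 : ST_D10) (n j : ℕ) (hn : 1 ≤ n) (α β : ℝ → ℝ) (y : Sq)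
    (hy : D16S y) (x : Fin (j / 2 + 1) → ℝ) :
    cub (j + 1) (d16_g n j α y x) = (-1 : ℂ) ^ j * ∑ i ∈ Finset.range (j + 2), (-1 : ℂ) ^ i *
      cub j (d16_f n j α β (rm i y) x) := by
  set R : ℕ → (Fin (j + 1) → ℝ) → ℝ := fun b u => if b = j
    then d16_val n j (Phi (j + 1) y u) (d16_xh (j / 2) x (j / 2)) * α (d16_xh (j / 2) x (j / 2)) + β (d16_xh (j / 2) x (j / 2))
    else d16_val n b (Phi (j + 1) y u) (d16_xh (j / 2) x (b / 2)) with hR
  set F : Fin (j + 1) → (Fin (j + 1) → ℝ) → ℂ := fun b u => ((R b u : ℝ) : ℂ) with hF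
  have hRcd : ∀ b, ContDiff ℝ 2 (R b) := by
    intro b
    rw [hR]
    by_cases hb : b = j
    · simp only [hb, if_true]
      exact ((d16_val_cd n j (j + 1) hn hy _).mul contDiff_const).add contDiff_const
    · simp only [hb, if_false]
      exact d16_val_cd n b (j + 1) hn hy _
  have hFcd : ∀ b, ContDiff ℝ 2 (F b) := fun b => Complex.ofRealCLM.contDiff.comp (hRcd b)
  -- derivatives
  have hFd : ∀ (b : Fin j) (u : Fin (j + 1) → ℝ) (a : Fin (j + 1)),
      fderiv ℝ (F b.castSucc) u (Pi.single a 1)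
        = ((d16_dval n b (Phi (j + 1) y u) (dPhi (j + 1) y a u) (d16_xh (j / 2) x (b / 2)) : ℝ) : ℂ) := by
    intro b u a
    have hb : ((b.castSucc : Fin (j + 1)) : ℕ) ≠ j := by
      rw [Fin.val_castSucc]
      exact b.2.ne
    have e : R (b.castSucc : Fin (j + 1)) = fun u => d16_val n b (Phi (j + 1) y u) (d16_xh (j / 2) x (b / 2)) := by
      funext u
      rw [hR]
      simp only [hb, if_false]
      rfl
    rw [hF]
    dsimp only
    rw [d16_ofReal_fd ((hRcd _).differentiable (by norm_num)), e, d16_val_fd n b (j + 1) hn hy]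
  have hFl : ∀ (u : Fin (j + 1) → ℝ) (a : Fin (j + 1)),
      fderiv ℝ (F (Fin.last j)) u (Pi.single a 1)
        = ((d16_dval n j (Phi (j + 1) y u) (dPhi (j + 1) y a u) (d16_xh (j / 2) x (j / 2))
          * α (d16_xh (j / 2) x (j / 2)) : ℝ) : ℂ) := by
    intro u a
    have e : R (Fin.last j : Fin (j + 1)) = fun u => d16_val n j (Phi (j + 1) y u) (d16_xh (j / 2) x (j / 2))
        * α (d16_xh (j / 2) x (j / 2)) + β (d16_xh (j / 2) x (j / 2)) := by
      funext u
      rw [hR]
      simp only [Fin.val_last, if_true]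
    rw [hF]
    dsimp only
    rw [d16_ofReal_fd ((hRcd _).differentiable (by norm_num)), e]
    have h1 := ((d16_val_cd n j (j + 1) hn hy (d16_xh (j / 2) x (j / 2))).differentiable (by norm_num) u).hasFDerivAt
    have h2 := (h1.mul_const (α (d16_xh (j / 2) x (j / 2)))).add_const (β (d16_xh (j / 2) x (j / 2)))
    have h3 := h2.fderiv
    rw [h3, _root_.smul_apply, d16_val_fd n j (j + 1) hn hy, smul_eq_mul, mul_comm]
  have hFv : ∀ u, F (Fin.last j) u = ((d16_val n j (Phi (j + 1) y u) (d16_xh (j / 2) x (j / 2))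
      * α (d16_xh (j / 2) x (j / 2)) + β (d16_xh (j / 2) x (j / 2)) : ℝ) : ℂ) := by
    intro u
    rw [hF, hR]
    simp only [Fin.val_last, if_true]
  -- left hand side
  have hL : cub (j + 1) (fun u => Matrix.det (Matrix.of fun a b => fderiv ℝ (F b) u (Pi.single a 1)))
      = cub (j + 1) (d16_g n j α y x) := by
    congr 1
    funext u
    rw [Matrix.det_apply', d16_g]
    apply Finset.sum_congr rfl
    intro σ _
    congr 1
    rw [Fin.prod_univ_castSucc]
    simp only [Matrix.of_apply]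
    rw [hFl]
    unfold d16_T
    rw [Finset.prod_range, Complex.ofReal_mul (∏ b : Fin j, _), Complex.ofReal_prod]
    congr 1
    · apply Finset.prod_congr rfl
      intro b _
      rw [hFd]
      congr 2
      exact (d16_dirs y u σ b.castSucc).symm
    · congr 3
      exact (d16_dirs y u σ (Fin.last j)).symm
  -- faces
  have face : ∀ (y' : Sq) (u' : Fin j → ℝ) (u : Fin (j + 1) → ℝ) (s : Fin j → Fin (j + 1)),
      Phi (j + 1) y u = Phi j y' u' → (∀ c, dPhi (j + 1) y (s c) u = dPhi j y' c u') →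
      F (Fin.last j) u * Matrix.det (Matrix.of fun (c b : Fin j) =>
          fderiv ℝ (F b.castSucc) u (Pi.single (s c) 1)) = d16_f n j α β y' x u' := by
    intro y' u' u s h1 h2
    rw [Matrix.det_apply', d16_f, Finset.mul_sum]
    apply Finset.sum_congr rfl
    intro σ _
    rw [hFv, h1]
    unfold d16_T
    rw [Finset.prod_range, Complex.ofReal_mul (∏ b : Fin j, _), Complex.ofReal_prod]
    have h3 : ∏ i : Fin j, (Matrix.of fun (c b : Fin j) =>
        fderiv ℝ (F b.castSucc) u (Pi.single (s c) 1)) (σ i) i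
        = ∏ i : Fin j, ((d16_dval n i (Phi j y' u') (dirs y' u' σ i) (d16_xh (j / 2) x (i / 2)) : ℝ) : ℂ) := by
      apply Finset.prod_congr rfl
      intro b _
      rw [Matrix.of_apply, hFd, h1, h2, d16_dirs]
    rw [h3]
    ring
  have hface1 : ∀ a : Fin (j + 1), cub j (fun u' => F (Fin.last j) (a.insertNth 1 u') *
      Matrix.det (Matrix.of fun (c b : Fin j) =>
          fderiv ℝ (F b.castSucc) (a.insertNth 1 u') (Pi.single (a.succAbove c) 1)))
      = cub j (d16_f n j α β (rm a y) x) := by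
    intro a
    congr 1
    funext u'
    exact face (rm a y) u' _ a.succAbove ((hD10 j y u').1 a) (fun c => (hD10 j y u').2.2.2.1 a c)
  have hface0 : cub j (fun u' => F (Fin.last j) ((Fin.last j).insertNth 0 u') *
      Matrix.det (Matrix.of fun (c b : Fin j) =>
          fderiv ℝ (F b.castSucc) ((Fin.last j).insertNth 0 u') (Pi.single ((Fin.last j).succAbove c) 1)))
      = cub j (d16_f n j α β (rm (j + 1) y) x) := by
    congr 1
    funext u'
    exact face (rm (j + 1) y) u' _ (Fin.last j).succAbove (hD10 j y u').2.1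
      (fun c => (hD10 j y u').2.2.2.2 c)
  have hface00 : ∀ a : Fin (j + 1), a ≠ Fin.last j →
      cub j (fun u' => F (Fin.last j) (a.insertNth 0 u') *
      Matrix.det (Matrix.of fun (c b : Fin j) =>
          fderiv ℝ (F b.castSucc) (a.insertNth 0 u') (Pi.single (a.succAbove c) 1))) = 0 := by
    intro a ha
    have haj : (a : ℕ) < j := by
      have := a.2
      have h2 : (a : ℕ) ≠ j := fun h => ha (Fin.ext h)
      omega
    have hz : (fun u' : Fin j → ℝ => F (Fin.last j) (a.insertNth 0 u') *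
      Matrix.det (Matrix.of fun (c b : Fin j) =>
          fderiv ℝ (F b.castSucc) (a.insertNth 0 u') (Pi.single (a.succAbove c) 1))) = fun _ => 0 := by
      funext u'
      have hlt : a < a.succAbove (⟨j - 1, by omega⟩ : Fin j) := by
        rw [Fin.succAbove_of_le_castSucc]
        · rw [Fin.lt_def, Fin.val_succ]
          show (a : ℕ) < j - 1 + 1
          omega
        · rw [Fin.le_def, Fin.val_castSucc]
          show (a : ℕ) ≤ j - 1
          omega
      rw [Matrix.det_eq_zero_of_row_eq_zero (⟨j - 1, by omega⟩ : Fin j), mul_zero]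
      intro b
      rw [Matrix.of_apply, hFd, (hD10 j y u').2.2.1 a _ hlt, d16_dval_zero]
      norm_num
    rw [hz]
    simp [cub]
  have hmain := hD9 j F hFcd
  rw [hL] at hmain
  rw [hmain]
  congr 1
  rw [Finset.sum_range_succ]
  have h1 : ∑ a : Fin (j + 1), (-1 : ℂ) ^ (a : ℕ) *
      (cub j (fun u' => F (Fin.last j) (a.insertNth 1 u') * Matrix.det (Matrix.of fun (c b : Fin j) =>
          fderiv ℝ (F b.castSucc) (a.insertNth 1 u') (Pi.single (a.succAbove c) 1)))
      - cub j (fun u' => F (Fin.last j) (a.insertNth 0 u') * Matrix.det (Matrix.of fun (c b : Fin j) =>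
          fderiv ℝ (F b.castSucc) (a.insertNth 0 u') (Pi.single (a.succAbove c) 1))))
      = ∑ a : Fin (j + 1), (((-1 : ℂ) ^ (a : ℕ) * cub j (d16_f n j α β (rm a y) x))
        - (if a = Fin.last j then (-1 : ℂ) ^ j * cub j (d16_f n j α β (rm (j + 1) y) x) else 0)) := by
    apply Finset.sum_congr rfl
    intro a _
    rw [hface1]
    by_cases ha : a = Fin.last j
    · subst ha
      rw [hface0, if_pos rfl, Fin.val_last]
      ring
    · rw [hface00 a ha, if_neg ha]
      ring
  rw [h1, Finset.sum_sub_distrib, Finset.sum_ite_eq', if_pos (Finset.mem_univ _),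
    Finset.sum_range (fun i => (-1 : ℂ) ^ i * cub j (d16_f n j α β (rm i y) x))]
  rw [pow_succ]
  ring

/-! ### integrals over the points -/

theorem d16_cub_prod (R : ℕ) (k : ℕ → ℝ → ℝ) :
    cub R (fun x => ∏ i : Fin R, ((k i (x i) : ℝ) : ℂ))
      = ((∏ i ∈ Finset.range R, ∫ t in (0 : ℝ)..1, k i t : ℝ) : ℂ) := by
  unfold cub
  have h1 : (volume : Measure (Fin R → ℝ)).restrict (Set.Icc (0 : Fin R → ℝ) 1)
      = Measure.pi (fun _ : Fin R => (volume : Measure ℝ).restrict (Set.Icc 0 1)) := by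
    rw [← Measure.restrict_pi_pi, volume_pi]
    congr 1
    exact (Set.pi_univ_Icc _ _).symm
  rw [h1, integral_fintype_prod_eq_prod (fun (i : Fin R) (t : ℝ) => ((k i t : ℝ) : ℂ)),
    Finset.prod_range, Complex.ofReal_prod]
  apply Finset.prod_congr rfl
  intro i _
  rw [intervalIntegral.integral_of_le zero_le_one, ← integral_Icc_eq_integral_Ioc]
  exact integral_ofReal

theorem d16_cub_swap (a b : ℕ) (f : (Fin a → ℝ) → (Fin b → ℝ) → ℂ)
    (hf : Continuous (Function.uncurry f)) :
    cub a (fun u => cub b (f u)) = cub b (fun x => cub a (fun u => f u x)) := by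
  unfold cub
  apply integral_integral_swap
  rw [Measure.prod_restrict]
  exact hf.continuousOn.integrableOn_compact (isCompact_Icc.prod isCompact_Icc)

theorem d16_prod_pairs (r : ℕ) (f : ℕ → ℝ) :
    ∏ b ∈ Finset.range (2 * r), f b = ∏ i ∈ Finset.range r, f (2 * i) * f (2 * i + 1) := by
  induction r with
  | zero => simp
  | succ r ih =>
    have e : 2 * (r + 1) = 2 * r + 1 + 1 := by ring
    rw [e, Finset.prod_range_succ, Finset.prod_range_succ, ih, Finset.prod_range_succ, mul_assoc]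

theorem d16_T_int (j : ℕ) (κ : ℕ → ℝ → ℝ) (last : ℝ → ℝ) :
    cub (j / 2 + 1) (fun x => ((d16_T j (j / 2) κ last x : ℝ) : ℂ))
      = (((∏ i ∈ Finset.range (j / 2), ∫ t in (0 : ℝ)..1, κ (2 * i) t * κ (2 * i + 1) t) *
        ∫ t in (0 : ℝ)..1, (if j % 2 = 0 then last t else κ (2 * (j / 2)) t * last t) : ℝ) : ℂ) := by
  set r := j / 2 with hr
  set k : ℕ → ℝ → ℝ := fun i t => if i < r then κ (2 * i) t * κ (2 * i + 1) t
    else (if j % 2 = 0 then last t else κ (2 * r) t * last t) with hk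
  have hT : (fun x : Fin (r + 1) → ℝ => ((d16_T j r κ last x : ℝ) : ℂ))
      = fun x => ∏ i : Fin (r + 1), ((k i (x i) : ℝ) : ℂ) := by
    funext x
    have h0 : ∏ i : Fin (r + 1), ((k i (x i) : ℝ) : ℂ)
        = ((∏ i ∈ Finset.range (r + 1), k i (d16_xh r x i) : ℝ) : ℂ) := by
      rw [Finset.prod_range, Complex.ofReal_prod]
      apply Finset.prod_congr rfl
      intro i _
      unfold d16_xh
      rw [dif_pos i.2]
    rw [h0]
    congr 1
    rw [d16_T, Finset.prod_range_succ]
    have h1 : ∏ i ∈ Finset.range r, k i (d16_xh r x i)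
        = ∏ b ∈ Finset.range (2 * r), κ b (d16_xh r x (b / 2)) := by
      rw [d16_prod_pairs r (fun b => κ b (d16_xh r x (b / 2)))]
      apply Finset.prod_congr rfl
      intro i hi
      rw [Finset.mem_range] at hi
      have e1 : 2 * i / 2 = i := by omega
      have e2 : (2 * i + 1) / 2 = i := by omega
      rw [hk]
      dsimp only
      rw [if_pos hi, e1, e2]
    rw [h1]
    have h2 : k r (d16_xh r x r) = if j % 2 = 0 then last (d16_xh r x r)
        else κ (2 * r) (d16_xh r x r) * last (d16_xh r x r) := by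
      rw [hk]
      dsimp only
      rw [if_neg (lt_irrefl r)]
    rw [h2]
    by_cases hj : j % 2 = 0
    · have e : j = 2 * r := by omega
      rw [if_pos hj]
      rw [← e]
    · have e : j = 2 * r + 1 := by omega
      rw [if_neg hj]
      have e3 : 2 * r / 2 = r := by omega
      have e4 : ∏ b ∈ Finset.range j, κ b (d16_xh r x (b / 2))
          = (∏ b ∈ Finset.range (2 * r), κ b (d16_xh r x (b / 2))) * κ (2 * r) (d16_xh r x r) := by
        rw [e, Finset.prod_range_succ, e3]
      rw [e4]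
      ring
  rw [hT, d16_cub_prod]
  congr 1
  rw [Finset.prod_range_succ]
  congr 1
  · apply Finset.prod_congr rfl
    intro i hi
    rw [Finset.mem_range] at hi
    congr 1
    funext t
    rw [hk]
    dsimp only
    rw [if_pos hi]
  · congr 1
    funext t
    rw [hk]
    dsimp only
    rw [if_neg (lt_irrefl r)]

end

end Pool.Agent.Helper67.DO
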