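import Pool.Agent.Helper35.DO.D16d

/-! D16, part e: evaluation of the integrals over the points. -/

set_option autoImplicit false

namespace Pool.Agent.Helper67.DO

open scoped BigOperators Real
open MeasureTheory

noncomputable section

/-- the constant factor -/
def d16_C (m j : ℕ) (z : Sq) : ℝ :=
  ∏ i ∈ Finset.Ico (j / 2 + 1) m, d16_K 0 i (Tp j (fun x => x) z) (fun _ _ => 0)

def d16_al (m j : ℕ) (z : Sq) : ℝ → ℝ := fun t =>
  if j % 2 = 0 then d16_C m j z * deriv (fun x => d16_l (z 0) x - d16_l (z 1) x) t else d16_C m j z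

def d16_be (m j : ℕ) (z : Sq) : ℝ → ℝ := fun t =>
  if j % 2 = 0 then
    -(d16_C m j z * (d16_l (z 1) t * deriv (fun x => d16_l (z 0) x - d16_l (z 1) x) t))
  else -(d16_C m j z * deriv (d16_l (z 0)) t)

theorem d16_al_cont (m j : ℕ) {z : Sq} (hz : ∀ k, IsLift (z k)) : Continuous (d16_al m j z) := by
  unfold d16_al
  by_cases h : j % 2 = 0
  · simp only [h, if_true]
    exact continuous_const.mul ((d16_lN (hz 0)).sub (d16_lN (hz 1))).cd
  · simp only [h, if_false]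
    exact continuous_const

theorem d16_be_cont (m j : ℕ) {z : Sq} (hz : ∀ k, IsLift (z k)) : Continuous (d16_be m j z) := by
  unfold d16_be
  by_cases h : j % 2 = 0
  · simp only [h, if_true]
    exact (continuous_const.mul ((d16_lN (hz 1)).c1.continuous.mul
      ((d16_lN (hz 0)).sub (d16_lN (hz 1))).cd)).neg
  · simp only [h, if_false]
    exact (continuous_const.mul (d16_lN (hz 0)).cd).neg

theorem d16_Tp_le {j k : ℕ} (h : k ≤ j) (Φ : ℝ → ℝ) (z : Sq) : Tp j Φ z k = Φ := by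
  unfold Tp
  rw [if_pos h]

theorem d16_Tp_gt {j k : ℕ} (h : j < k) (Φ : ℝ → ℝ) (z : Sq) : Tp j Φ z k = z (k - (j + 1)) := by
  unfold Tp
  rw [if_neg (by omega)]

/-- factors of the product -/
theorem d16_r_split (m J r : ℕ) (hr : r < m) (y v : Sq) :
    d16_r m J y v = (∏ i ∈ Finset.range r, d16_K J i y v) * d16_K J r y v *
      ∏ i ∈ Finset.Ico (r + 1) m, d16_K J i y v := by
  rw [d16_r, ← Finset.prod_range_mul_prod_Ico _ (show r + 1 ≤ m by omega), Finset.prod_range_succ]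

theorem d16_tail (m j J : ℕ) (hJ : J ≤ j + 1) (Φ : ℝ → ℝ) (z D : Sq) :
    ∏ i ∈ Finset.Ico (j / 2 + 1) m, d16_K J i (Tp j Φ z) D = d16_C m j z := by
  unfold d16_C
  apply Finset.prod_congr rfl
  intro i hi
  rw [Finset.mem_Ico] at hi
  unfold d16_K
  rw [if_neg (by omega), if_neg (by omega), if_neg (by omega), if_neg (by omega),
    d16_Tp_gt (by omega), d16_Tp_gt (by omega), d16_Tp_gt (by omega), d16_Tp_gt (by omega),
    d16_Tp_gt (by omega), d16_Tp_gt (by omega)]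

theorem d16_head (n j J : ℕ) (hn : 1 ≤ n) (hJ : j ≤ J) {Φ : ℝ → ℝ} (h : Φ ∈ AA n) (z D : Sq)
    (hD : ∀ b < j, D16V (D b)) :
    ∏ i ∈ Finset.range (j / 2), d16_K J i (Tp j Φ z) D
      = ∏ i ∈ Finset.range (j / 2), ∫ t in (0 : ℝ)..1,
        d16_dval n (2 * i) Φ (D (2 * i)) t * d16_dval n (2 * i + 1) Φ (D (2 * i + 1)) t := by
  apply Finset.prod_congr rfl
  intro i hi
  rw [Finset.mem_range] at hi
  unfold d16_K
  rw [if_pos (by omega), d16_Tp_le (by omega), d16_Tp_le (by omega), d16_w]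
  congr 1
  funext t
  rw [d16_dval_even n _ hn (by omega) h, d16_dval_odd n _ hn (by omega) h (hD _ (by omega))]

theorem d16_E1 (n m j : ℕ) (hn : 1 ≤ n) (hj : j < 2 * m) {z : Sq} (hz : ∀ k, IsLift (z k))
    {Φ : ℝ → ℝ} (h : Φ ∈ AA n) (D : Sq) (hD : ∀ b < j, D16V (D b)) :
    (∏ i ∈ Finset.range (j / 2), ∫ t in (0 : ℝ)..1,
        d16_dval n (2 * i) Φ (D (2 * i)) t * d16_dval n (2 * i + 1) Φ (D (2 * i + 1)) t) *
      (∫ t in (0 : ℝ)..1, (if j % 2 = 0 then d16_val n j Φ t * d16_al m j z t + d16_be m j z t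
        else d16_dval n (2 * (j / 2)) Φ (D (2 * (j / 2))) t *
          (d16_val n j Φ t * d16_al m j z t + d16_be m j z t)))
      = d16_r m j (Tp j Φ z) D := by
  rw [d16_r_split m j (j / 2) (by omega), d16_head n j j hn (le_refl _) h z D hD,
    d16_tail m j j (by omega), mul_assoc]
  congr 1
  by_cases hp : j % 2 = 0
  · simp only [hp, if_true]
    unfold d16_K
    rw [if_neg (by omega), if_neg (by omega), d16_Tp_le (by omega), d16_Tp_gt (by omega),
      d16_Tp_gt (by omega)]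
    have e1 : 2 * (j / 2) + 2 - (j + 1) = 1 := by omega
    have e2 : 2 * (j / 2) + 1 - (j + 1) = 0 := by omega
    rw [e1, e2, d16_w, ← intervalIntegral.integral_mul_const]
    congr 1
    funext t
    rw [d16_val_even n j hn hp h, d16_al, d16_be, if_pos hp, if_pos hp]
    ring
  · simp only [hp, if_false]
    unfold d16_K
    rw [if_neg (by omega), if_pos (by omega), d16_Tp_le (by omega), d16_Tp_le (by omega),
      d16_Tp_gt (by omega)]
    have e1 : 2 * (j / 2) + 2 - (j + 1) = 0 := by omega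
    rw [e1, d16_w, ← intervalIntegral.integral_mul_const]
    congr 1
    funext t
    rw [d16_val_odd n j hn (by omega) h, d16_dval_even n _ hn (by omega) h, d16_al, d16_be,
      if_neg hp, if_neg hp, d16_sub_deriv (d16_lN h.1) (d16_lN (hz 0))]
    ring

theorem d16_E2 (n m j : ℕ) (hn : 1 ≤ n) (hj : j < 2 * m) {z : Sq}
    {Φ : ℝ → ℝ} (h : Φ ∈ AA n) (D : Sq) (hD : ∀ b < j + 1, D16V (D b)) :
    (∏ i ∈ Finset.range (j / 2), ∫ t in (0 : ℝ)..1,
        d16_dval n (2 * i) Φ (D (2 * i)) t * d16_dval n (2 * i + 1) Φ (D (2 * i + 1)) t) *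
      (∫ t in (0 : ℝ)..1, (if j % 2 = 0 then d16_dval n j Φ (D j) t * d16_al m j z t
        else d16_dval n (2 * (j / 2)) Φ (D (2 * (j / 2))) t *
          (d16_dval n j Φ (D j) t * d16_al m j z t)))
      = d16_r m (j + 1) (Tp j Φ z) D := by
  rw [d16_r_split m (j + 1) (j / 2) (by omega), d16_head n j (j + 1) hn (by omega) h z D
    (fun b hb => hD b (by omega)), d16_tail m j (j + 1) (le_refl _), mul_assoc]
  congr 1
  by_cases hp : j % 2 = 0
  · have ej : 2 * (j / 2) = j := by omega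
    simp only [hp, if_true]
    unfold d16_K
    rw [ej, if_neg (by omega), if_pos (by omega), d16_Tp_le (by omega), d16_Tp_gt (by omega),
      d16_Tp_gt (by omega)]
    have e1 : j + 2 - (j + 1) = 1 := by omega
    have e2 : j + 1 - (j + 1) = 0 := by omega
    rw [e1, e2, d16_w, ← intervalIntegral.integral_mul_const]
    congr 1
    funext t
    rw [d16_dval_even n j hn hp h, d16_al, if_pos hp]
    ring
  · have ej : 2 * (j / 2) + 1 = j := by omega
    simp only [hp, if_false]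
    unfold d16_K
    rw [if_pos (by omega), d16_Tp_le (by omega), d16_Tp_le (by omega), ej, d16_w,
      ← intervalIntegral.integral_mul_const]
    congr 1
    funext t
    rw [d16_dval_odd n j hn (by omega) h (hD j (by omega)), d16_dval_even n _ hn (by omega) h, d16_al,
      if_neg hp]
    ring

/-! ### continuity -/

theorem d16_T_cont {X : Type} [TopologicalSpace X] (j r : ℕ) (κ : X → ℕ → ℝ → ℝ) (last : X → ℝ → ℝ)
    (hκ : ∀ b < j, Continuous (fun w : X × ℝ => κ w.1 b w.2))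
    (hl : Continuous (fun w : X × ℝ => last w.1 w.2)) :
    Continuous (fun w : X × (Fin (r + 1) → ℝ) => ((d16_T j r (κ w.1) (last w.1) w.2 : ℝ) : ℂ)) := by
  apply Complex.continuous_ofReal.comp
  unfold d16_T
  apply Continuous.mul
  · apply continuous_finsetProd
    intro b hb
    rw [Finset.mem_range] at hb
    exact (hκ b hb).comp (continuous_fst.prodMk ((d16_xh_cont r (b / 2)).comp continuous_snd))
  · exact hl.comp (continuous_fst.prodMk ((d16_xh_cont r r).comp continuous_snd))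

theorem d16_dirs_cont (n b q : ℕ) (hn : 1 ≤ n) {y : Sq} (h : D16S y) (hb : b < q)
    (σ : Equiv.Perm (Fin q)) :
    Continuous (fun w : (Fin q → ℝ) × ℝ => d16_dval n b (Phi q y w.1) (dirs y w.1 σ b) w.2) := by
  have : (fun w : (Fin q → ℝ) × ℝ => d16_dval n b (Phi q y w.1) (dirs y w.1 σ b) w.2)
      = fun w : (Fin q → ℝ) × ℝ => d16_dval n b (Phi q y w.1) (dPhi q y (σ ⟨b, hb⟩) w.1) w.2 := by
    funext w
    unfold dirs
    rw [dif_pos hb]
  rw [this]
  exact d16_dval_cont n b q hn h _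

/-- summands of `d16_f` -/
def d16_fs (n j : ℕ) (α β : ℝ → ℝ) (y : Sq) (u : Fin j → ℝ) (σ : Equiv.Perm (Fin j))
    (x : Fin (j / 2 + 1) → ℝ) : ℂ :=
  ((d16_T j (j / 2) (fun b t => d16_dval n b (Phi j y u) (dirs y u σ b) t)
      (fun t => d16_val n j (Phi j y u) t * α t + β t) x : ℝ) : ℂ)

def d16_gs (n j : ℕ) (α : ℝ → ℝ) (y : Sq) (u : Fin (j + 1) → ℝ) (σ : Equiv.Perm (Fin (j + 1)))
    (x : Fin (j / 2 + 1) → ℝ) : ℂ :=
  ((d16_T j (j / 2) (fun b t => d16_dval n b (Phi (j + 1) y u) (dirs y u σ b) t)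
      (fun t => d16_dval n j (Phi (j + 1) y u) (dirs y u σ j) t * α t) x : ℝ) : ℂ)

theorem d16_fs_cont (n j : ℕ) (hn : 1 ≤ n) {α β : ℝ → ℝ} (hα : Continuous α) (hβ : Continuous β)
    {y : Sq} (hy : D16S y) (σ : Equiv.Perm (Fin j)) :
    Continuous (fun w : (Fin j → ℝ) × (Fin (j / 2 + 1) → ℝ) => d16_fs n j α β y w.1 σ w.2) := by
  unfold d16_fs
  apply d16_T_cont j (j / 2) (fun (u : Fin j → ℝ) b t => d16_dval n b (Phi j y u) (dirs y u σ b) t)
    (fun u t => d16_val n j (Phi j y u) t * α t + β t)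
  · intro b hb
    exact d16_dirs_cont n b j hn hy hb σ
  · exact ((d16_val_cont n j j hn hy).mul (hα.comp continuous_snd)).add (hβ.comp continuous_snd)

theorem d16_gs_cont (n j : ℕ) (hn : 1 ≤ n) {α : ℝ → ℝ} (hα : Continuous α)
    {y : Sq} (hy : D16S y) (σ : Equiv.Perm (Fin (j + 1))) :
    Continuous (fun w : (Fin (j + 1) → ℝ) × (Fin (j / 2 + 1) → ℝ) => d16_gs n j α y w.1 σ w.2) := by
  unfold d16_gs
  apply d16_T_cont j (j / 2) (fun (u : Fin (j + 1) → ℝ) b t =>
      d16_dval n b (Phi (j + 1) y u) (dirs y u σ b) t)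
    (fun u t => d16_dval n j (Phi (j + 1) y u) (dirs y u σ j) t * α t)
  · intro b hb
    exact d16_dirs_cont n b (j + 1) hn hy (by omega) σ
  · exact (d16_dirs_cont n j (j + 1) hn hy (by omega) σ).mul (hα.comp continuous_snd)

theorem d16_f_cont (n j : ℕ) (hn : 1 ≤ n) {α β : ℝ → ℝ} (hα : Continuous α) (hβ : Continuous β)
    {y : Sq} (hy : D16S y) :
    Continuous (Function.uncurry (fun (u : Fin j → ℝ) (x : Fin (j / 2 + 1) → ℝ) =>
      d16_f n j α β y x u)) := by
  unfold Function.uncurry d16_f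
  apply continuous_finsetSum
  intro σ _
  exact continuous_const.mul (d16_fs_cont n j hn hα hβ hy σ)

theorem d16_g_cont (n j : ℕ) (hn : 1 ≤ n) {α : ℝ → ℝ} (hα : Continuous α)
    {y : Sq} (hy : D16S y) :
    Continuous (Function.uncurry (fun (u : Fin (j + 1) → ℝ) (x : Fin (j / 2 + 1) → ℝ) =>
      d16_g n j α y x u)) := by
  unfold Function.uncurry d16_g
  apply continuous_finsetSum
  intro σ _
  exact continuous_const.mul (d16_gs_cont n j hn hα hy σ)

theorem d16_cub_int {q : ℕ} {f : (Fin q → ℝ) → ℂ} (hf : Continuous f) :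
    IntegrableOn f (Set.Icc (0 : Fin q → ℝ) 1) :=
  hf.continuousOn.integrableOn_compact isCompact_Icc

theorem d16_cub_sum {ι : Type} (s : Finset ι) (q : ℕ) (a : ι → ℂ) (f : ι → (Fin q → ℝ) → ℂ)
    (hf : ∀ i, Continuous (f i)) :
    cub q (fun x => ∑ i ∈ s, a i * f i x) = ∑ i ∈ s, a i * cub q (f i) := by
  unfold cub
  have h : ∀ i ∈ s, Integrable (fun x => a i * f i x) (volume.restrict (Set.Icc (0 : Fin q → ℝ) 1)) :=
    fun i _ => d16_cub_int (continuous_const.mul (hf i))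
  rw [integral_finsetSum s h]
  apply Finset.sum_congr rfl
  intro i _
  exact integral_const_mul _ _

theorem d16_fs_c (n j : ℕ) (hn : 1 ≤ n) {α β : ℝ → ℝ} (hα : Continuous α) (hβ : Continuous β)
    {y : Sq} (hy : D16S y) (u : Fin j → ℝ) (σ : Equiv.Perm (Fin j)) :
    Continuous (d16_fs n j α β y u σ) := by
  have h1 : Continuous (fun x : Fin (j / 2 + 1) → ℝ => (u, x)) := continuous_const.prodMk continuous_id
  have h2 := (d16_fs_cont n j hn hα hβ hy σ).comp h1
  refine h2.congr (fun x => ?_)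
  rw [Function.comp]

theorem d16_gs_c (n j : ℕ) (hn : 1 ≤ n) {α : ℝ → ℝ} (hα : Continuous α)
    {y : Sq} (hy : D16S y) (u : Fin (j + 1) → ℝ) (σ : Equiv.Perm (Fin (j + 1))) :
    Continuous (d16_gs n j α y u σ) := by
  have h1 : Continuous (fun x : Fin (j / 2 + 1) → ℝ => (u, x)) := continuous_const.prodMk continuous_id
  have h2 := (d16_gs_cont n j hn hα hy σ).comp h1
  refine h2.congr (fun x => ?_)
  rw [Function.comp]

theorem d16_f_sum (n j : ℕ) (hn : 1 ≤ n) {α β : ℝ → ℝ} (hα : Continuous α) (hβ : Continuous β)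
    {y : Sq} (hy : D16S y) (u : Fin j → ℝ) :
    cub (j / 2 + 1) (fun x => d16_f n j α β y x u)
      = ∑ σ : Equiv.Perm (Fin j), ((Equiv.Perm.sign σ : ℤ) : ℂ) *
        cub (j / 2 + 1) (d16_fs n j α β y u σ) :=
  d16_cub_sum Finset.univ (j / 2 + 1) (fun σ : Equiv.Perm (Fin j) => ((Equiv.Perm.sign σ : ℤ) : ℂ))
    (fun σ => d16_fs n j α β y u σ) (fun σ => d16_fs_c n j hn hα hβ hy u σ)

theorem d16_g_sum (n j : ℕ) (hn : 1 ≤ n) {α : ℝ → ℝ} (hα : Continuous α)
    {y : Sq} (hy : D16S y) (u : Fin (j + 1) → ℝ) :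
    cub (j / 2 + 1) (fun x => d16_g n j α y x u)
      = ∑ σ : Equiv.Perm (Fin (j + 1)), ((Equiv.Perm.sign σ : ℤ) : ℂ) *
        cub (j / 2 + 1) (d16_gs n j α y u σ) :=
  d16_cub_sum Finset.univ (j / 2 + 1)
    (fun σ : Equiv.Perm (Fin (j + 1)) => ((Equiv.Perm.sign σ : ℤ) : ℂ))
    (fun σ => d16_gs n j α y u σ) (fun σ => d16_gs_c n j hn hα hy u σ)

theorem d16_fs_val (hD2 : ST_D2) (n m j : ℕ) (hn : 1 ≤ n) (hj : j < 2 * m) {y z : Sq}
    (hy : ∀ k, y k ∈ AA n) (hz : ∀ k, z k ∈ AA n) (u : Fin j → ℝ) (hu : u ∈ Set.Icc (0 : Fin j → ℝ) 1)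
    (σ : Equiv.Perm (Fin j)) :
    cub (j / 2 + 1) (d16_fs n j (d16_al m j z) (d16_be m j z) y u σ)
      = ((d16_r m j (Tp j (Phi j y u) z) (dirs y u σ) : ℝ) : ℂ) := by
  have hzl : ∀ k, IsLift (z k) := fun k => (hz k).1
  have hΦ : Phi j y u ∈ AA n := hD2.2.2.2.2.2.2.1 n hn j y hy u hu
  obtain ⟨K, hK⟩ := hD2.2.2.2.2.2.2.2 n hn j y hy
  have hD : ∀ b < j, D16V (dirs y u σ b) := by
    intro b hb
    unfold dirs
    rw [dif_pos hb]
    exact d16_VV (hK u hu _)
  have h1 := d16_E1 n m j hn hj hzl hΦ (dirs y u σ) hD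
  have h2 := d16_T_int j (fun b t => d16_dval n b (Phi j y u) (dirs y u σ b) t)
      (fun t => d16_val n j (Phi j y u) t * d16_al m j z t + d16_be m j z t)
  beta_reduce at h2
  rw [h1] at h2
  exact h2

theorem d16_gs_val (hD2 : ST_D2) (n m j : ℕ) (hn : 1 ≤ n) (hj : j < 2 * m) {y z : Sq}
    (hy : ∀ k, y k ∈ AA n) (hz : ∀ k, z k ∈ AA n) (u : Fin (j + 1) → ℝ)
    (hu : u ∈ Set.Icc (0 : Fin (j + 1) → ℝ) 1) (σ : Equiv.Perm (Fin (j + 1))) :
    cub (j / 2 + 1) (d16_gs n j (d16_al m j z) y u σ)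
      = ((d16_r m (j + 1) (Tp j (Phi (j + 1) y u) z) (dirs y u σ) : ℝ) : ℂ) := by
  have hzl : ∀ k, IsLift (z k) := fun k => (hz k).1
  have hΦ : Phi (j + 1) y u ∈ AA n := hD2.2.2.2.2.2.2.1 n hn (j + 1) y hy u hu
  obtain ⟨K, hK⟩ := hD2.2.2.2.2.2.2.2 n hn (j + 1) y hy
  have hD : ∀ b < j + 1, D16V (dirs y u σ b) := by
    intro b hb
    unfold dirs
    rw [dif_pos hb]
    exact d16_VV (hK u hu _)
  have h1 := d16_E2 n m j hn hj hΦ (z := z) (dirs y u σ) hD
  have h2 := d16_T_int j (fun b t => d16_dval n b (Phi (j + 1) y u) (dirs y u σ b) t)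
      (fun t => d16_dval n j (Phi (j + 1) y u) (dirs y u σ j) t * d16_al m j z t)
  beta_reduce at h2
  rw [h1] at h2
  exact h2

/-- integration over the points gives `fF` -/
theorem d16_fF (hD2 : ST_D2) (n m j : ℕ) (hn : 1 ≤ n) (hj : j < 2 * m) {y z : Sq}
    (hy : ∀ k, y k ∈ AA n) (hz : ∀ k, z k ∈ AA n) (u : Fin j → ℝ) (hu : u ∈ Set.Icc (0 : Fin j → ℝ) 1) :
    cub (j / 2 + 1) (fun x => d16_f n j (d16_al m j z) (d16_be m j z) y x u)
      = fF (d16_c m) j y z u := by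
  have hzl : ∀ k, IsLift (z k) := fun k => (hz k).1
  rw [d16_f_sum n j hn (d16_al_cont m j hzl) (d16_be_cont m j hzl) (d16_S_AA hy), fF]
  apply Finset.sum_congr rfl
  intro σ _
  rw [d16_fs_val hD2 n m j hn hj hy hz u hu, d16_c]

theorem d16_gF (hD2 : ST_D2) (n m j : ℕ) (hn : 1 ≤ n) (hj : j < 2 * m) {y z : Sq}
    (hy : ∀ k, y k ∈ AA n) (hz : ∀ k, z k ∈ AA n) (u : Fin (j + 1) → ℝ)
    (hu : u ∈ Set.Icc (0 : Fin (j + 1) → ℝ) 1) :
    cub (j / 2 + 1) (fun x => d16_g n j (d16_al m j z) y x u) = gF (d16_c m) j y z u := by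
  have hzl : ∀ k, IsLift (z k) := fun k => (hz k).1
  rw [d16_g_sum n j hn (d16_al_cont m j hzl) (d16_S_AA hy), gF]
  apply Finset.sum_congr rfl
  intro σ _
  rw [d16_gs_val hD2 n m j hn hj hy hz u hu, d16_c]

theorem d16_cub_congr {q : ℕ} {f g : (Fin q → ℝ) → ℂ} (h : ∀ u ∈ Set.Icc (0 : Fin q → ℝ) 1, f u = g u) :
    cub q f = cub q g := by
  unfold cub
  exact setIntegral_congr_fun measurableSet_Icc h

theorem d16_rm_AA {n : ℕ} {y : Sq} (hy : ∀ k, y k ∈ AA n) (i : ℕ) : ∀ k, rm i y k ∈ AA n := by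
  intro k
  unfold rm
  split_ifs
  · exact hy _
  · exact hy _

theorem d16_m3 (hD2 : ST_D2) (hD9 : ST_D9) (hD10 : ST_D10) (n m j : ℕ) (hn : 1 ≤ n) (hj : j < 2 * m)
    (y z : Sq) (hy : ∀ k, y k ∈ AA n) (hz : ∀ k, z k ∈ AA n) :
    ∑ i ∈ Finset.range (j + 2), (-1 : ℂ) ^ i * cub j (fF (d16_c m) j (rm i y) z)
      = (-1 : ℂ) ^ j * cub (j + 1) (gF (d16_c m) j y z) := by
  have hzl : ∀ k, IsLift (z k) := fun k => (hz k).1
  have hα := d16_al_cont m j hzl
  have hβ := d16_be_cont m j hzl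
  have h1 : ∀ i, cub j (fF (d16_c m) j (rm i y) z)
      = cub (j / 2 + 1) (fun x => cub j (fun u => d16_f n j (d16_al m j z) (d16_be m j z) (rm i y) x u)) := by
    intro i
    rw [← d16_cub_swap j (j / 2 + 1) (fun u x => d16_f n j (d16_al m j z) (d16_be m j z) (rm i y) x u)
      (d16_f_cont n j hn hα hβ (d16_S_AA (d16_rm_AA hy i)))]
    exact d16_cub_congr (fun u hu => (d16_fF hD2 n m j hn hj (d16_rm_AA hy i) hz u hu).symm)
  have h2 : cub (j + 1) (gF (d16_c m) j y z)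
      = cub (j / 2 + 1) (fun x => cub (j + 1) (fun u => d16_g n j (d16_al m j z) y x u)) := by
    rw [← d16_cub_swap (j + 1) (j / 2 + 1) (fun u x => d16_g n j (d16_al m j z) y x u)
      (d16_g_cont n j hn hα (d16_S_AA hy))]
    exact d16_cub_congr (fun u hu => (d16_gF hD2 n m j hn hj hy hz u hu).symm)
  rw [h2]
  have h3 : (fun x : Fin (j / 2 + 1) → ℝ => cub (j + 1) (fun u => d16_g n j (d16_al m j z) y x u))
      = fun x => (-1 : ℂ) ^ j * ∑ i ∈ Finset.range (j + 2), (-1 : ℂ) ^ i *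
        cub j (fun u => d16_f n j (d16_al m j z) (d16_be m j z) (rm i y) x u) := by
    funext x
    exact d16_S hD9 hD10 n j hn _ _ y (d16_S_AA hy) x
  rw [h3]
  have h4 : cub (j / 2 + 1) (fun x => (-1 : ℂ) ^ j * ∑ i ∈ Finset.range (j + 2), (-1 : ℂ) ^ i *
        cub j (fun u => d16_f n j (d16_al m j z) (d16_be m j z) (rm i y) x u))
      = (-1 : ℂ) ^ j * ∑ i ∈ Finset.range (j + 2), (-1 : ℂ) ^ i *
        cub (j / 2 + 1) (fun x => cub j (fun u => d16_f n j (d16_al m j z) (d16_be m j z) (rm i y) x u)) := by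
    unfold cub
    rw [integral_const_mul, integral_finsetSum]
    · congr 1
      apply Finset.sum_congr rfl
      intro i _
      exact integral_const_mul _ _
    · intro i _
      apply Integrable.const_mul
      have hc := d16_f_cont n j hn hα hβ (d16_S_AA (d16_rm_AA hy i))
      have hI : Integrable (Function.uncurry (fun (u : Fin j → ℝ) (x : Fin (j / 2 + 1) → ℝ) =>
          d16_f n j (d16_al m j z) (d16_be m j z) (rm i y) x u))
          ((volume.restrict (Set.Icc (0 : Fin j → ℝ) 1)).prod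
            (volume.restrict (Set.Icc (0 : Fin (j / 2 + 1) → ℝ) 1))) := by
        rw [Measure.prod_restrict]
        exact hc.continuousOn.integrableOn_compact (isCompact_Icc.prod isCompact_Icc)
      exact hI.integral_prod_right
  rw [h4, ← mul_assoc, ← pow_add, ← two_mul, pow_mul, neg_one_sq, one_pow, one_mul]
  apply Finset.sum_congr rfl
  intro i _
  rw [h1 i]

end

end Pool.Agent.Helper67.DO
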